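import Mathlib

/-!
Mixed dyadic model: rate variables, barrier lemma, uniqueness.
-/

set_option autoImplicit false

namespace Pool.Agent.Work.MP_6bf1e5_an.Mixed

open Set Filter Topology

/-- barrier lemma for a family of functions of which only finitely many can vanish. -/
lemma barrier {ι : Type*} (φ : ι → ℝ → ℝ) (t0 t1 : ℝ) (S : Set ι) (hS : S.Finite)
    (hc : ∀ i, ContinuousOn (φ i) (Icc t0 t1))
    (hout : ∀ i, i ∉ S → ∀ t ∈ Icc t0 t1, 0 < φ i t)
    (h0 : ∀ i, 0 < φ i t0)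
    (hd : ∀ t ∈ Ioo t0 t1, (∀ i, 0 ≤ φ i t) → ∀ i, φ i t = 0 → ∃ D, 0 < D ∧ HasDerivAt (φ i) D t) :
    ∀ t ∈ Icc t0 t1, ∀ i, 0 ≤ φ i t := by
  intro t ht i
  by_contra hneg
  push Not at hneg
  have hiS : i ∈ S := by
    by_contra h
    exact absurd (hout i h t ht) (not_lt.mpr hneg.le)
  set Z : Set ℝ := ⋃ j ∈ S, (Icc t0 t1 ∩ φ j ⁻¹' Iic 0) with hZ
  have hZc : IsClosed Z :=
    hS.isClosed_biUnion (fun j _ => (hc j).preimage_isClosed_of_isClosed isClosed_Icc isClosed_Iic)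
  have htZ : t ∈ Z := mem_biUnion hiS ⟨ht, hneg.le⟩
  have hZb : BddBelow Z := ⟨t0, fun s hs => by
    obtain ⟨j, _, hj⟩ := mem_iUnion₂.mp hs
    exact hj.1.1⟩
  set s := sInf Z with hs
  have hsZ : s ∈ Z := hZc.csInf_mem ⟨t, htZ⟩ hZb
  obtain ⟨j, hjS, hsI, hjs⟩ := mem_iUnion₂.mp hsZ
  have hjs' : φ j s ≤ 0 := hjs
  have hst : s ≤ t := csInf_le hZb htZ
  have hs0 : t0 < s := by
    rcases hsI.1.eq_or_lt with h | h
    · rw [← h] at hjs'; exact absurd (h0 j) (not_lt.mpr hjs')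
    · exact h
  have hbefore : ∀ r ∈ Ico t0 s, ∀ k, 0 < φ k r := by
    intro r hr k
    have hrI : r ∈ Icc t0 t1 := ⟨hr.1, hr.2.le.trans hsI.2⟩
    by_cases hk : k ∈ S
    · by_contra h
      push Not at h
      have : r ∈ Z := mem_biUnion hk ⟨hrI, h⟩
      exact absurd (csInf_le hZb this) (not_le.mpr hr.2)
    · exact hout k hk r hrI
  have hat : ∀ k, 0 ≤ φ k s := by
    intro k
    have h1 : ContinuousWithinAt (φ k) (Ico t0 s) s :=
      (hc k s hsI).mono (fun r hr => ⟨hr.1, hr.2.le.trans hsI.2⟩)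
    have h2 : s ∈ closure (Ico t0 s) := by
      rw [closure_Ico hs0.ne]; exact ⟨hs0.le, le_rfl⟩
    have h3 := h1.mem_closure_image h2
    have h4 : φ k '' Ico t0 s ⊆ Ici 0 := by
      rintro _ ⟨r, hr, rfl⟩; exact (hbefore r hr k).le
    exact isClosed_Ici.closure_subset_iff.mpr h4 h3
  have hs1 : s < t1 := by
    rcases hsI.2.eq_or_lt with h | h
    · have : t = s := le_antisymm (h ▸ ht.2) hst
      rw [this] at hneg
      exact absurd (hat i) (not_le.mpr hneg)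
    · exact h
  have hz : φ j s = 0 := le_antisymm hjs' (hat j)
  obtain ⟨D, hD, hder⟩ := hd s ⟨hs0, hs1⟩ hat j hz
  have h5 : Tendsto (slope (φ j) s) (𝓝[<] s) (𝓝 D) :=
    (hasDerivAt_iff_tendsto_slope.mp hder).mono_left (nhdsLT_le_nhdsNE s)
  have h6 : ∀ᶠ r in 𝓝[<] s, 0 < slope (φ j) s r := h5.eventually (lt_mem_nhds hD)
  have h7 : ∀ᶠ r in 𝓝[<] s, r ∈ Ico t0 s := Ico_mem_nhdsLT hs0
  obtain ⟨r, hr1, hr2⟩ := (h6.and h7).exists
  rw [slope_def_field, hz, sub_zero] at hr1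
  have h8 := hbefore r hr2 j
  have h9 : r - s < 0 := by linarith [hr2.2]
  exact absurd (div_neg_of_pos_of_neg h8 h9) (not_lt.mpr hr1.le)

/-- parameters of the system in rate variables. -/
structure Par where
  d : ℕ → ℝ
  g : ℕ → ℝ
  η : ℝ
  β : ℝ

/-- admissible parameters. -/
structure Par.OK (p : Par) : Prop where
  d_nonneg : ∀ j, 0 ≤ p.d j
  d_mono : Monotone p.d
  g_nonneg : ∀ j, 0 ≤ p.g j
  g_le : ∀ j, p.g j ≤ 1
  η_nonneg : 0 ≤ p.η
  η_le : p.η ≤ 1 / 2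
  β_nonneg : 0 ≤ p.β
  β_le : p.β ≤ 1

/-- the previous mode. -/
def pr (u : ℕ → ℝ) : ℕ → ℝ
  | 0 => 0
  | j + 1 => u j

/-- quadratic part. -/
def N (p : Par) (u : ℕ → ℝ) (j : ℕ) : ℝ :=
  (pr u j - p.β * u (j + 1)) * u j + p.η * pr u j ^ 2 - p.g j * u (j + 1) ^ 2

/-- the vector field. -/
def F (p : Par) (u : ℕ → ℝ) (j : ℕ) : ℝ := -p.d j * u j + N p u j

/-- solution on a closed interval, weak form at the end points. -/
def Sol (p : Par) (u : ℕ → ℝ → ℝ) (t0 t1 : ℝ) : Prop :=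
  ∀ j, ContinuousOn (u j) (Icc t0 t1) ∧
    ∀ t ∈ Ioo t0 t1, HasDerivAt (u j) (F p (fun i => u i t) j) t

/-- uniform geometric decay on a closed interval. -/
def Dec (u : ℕ → ℝ → ℝ) (t0 t1 : ℝ) : Prop :=
  ∃ C, ∀ j, ∀ t ∈ Icc t0 t1, 2 ^ j * |u j t| ≤ C

lemma Sol.mono {p : Par} {u : ℕ → ℝ → ℝ} {t0 t1 s0 s1 : ℝ} (h : Sol p u t0 t1) (h0 : t0 ≤ s0)
    (h1 : s1 ≤ t1) : Sol p u s0 s1 := fun j =>
  ⟨(h j).1.mono (Icc_subset_Icc h0 h1), fun t ht => (h j).2 t (Ioo_subset_Ioo h0 h1 ht)⟩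

lemma Dec.mono {u : ℕ → ℝ → ℝ} {t0 t1 s0 s1 : ℝ} (h : Dec u t0 t1) (h0 : t0 ≤ s0)
    (h1 : s1 ≤ t1) : Dec u s0 s1 := by
  obtain ⟨C, hC⟩ := h
  exact ⟨C, fun j t ht => hC j t (Icc_subset_Icc h0 h1 ht)⟩

lemma Dec.bound {u : ℕ → ℝ → ℝ} {t0 t1 : ℝ} (h : Dec u t0 t1) :
    ∃ R, 0 ≤ R ∧ ∀ j, ∀ t ∈ Icc t0 t1, |u j t| ≤ R := by
  obtain ⟨C, hC⟩ := h
  refine ⟨max C 0, le_max_right _ _, fun j t ht => ?_⟩
  have h1 : (1 : ℝ) ≤ 2 ^ j := one_le_pow₀ (by norm_num)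
  have := hC j t ht
  have h2 := abs_nonneg (u j t)
  exact le_max_of_le_left (by nlinarith)

lemma Dec.small {u : ℕ → ℝ → ℝ} {t0 t1 : ℝ} (h : Dec u t0 t1) {δ : ℝ} (hδ : 0 < δ) :
    ∃ J : ℕ, ∀ j, J ≤ j → ∀ t ∈ Icc t0 t1, |u j t| < δ := by
  obtain ⟨C, hC⟩ := h
  obtain ⟨J, hJ⟩ := pow_unbounded_of_one_lt (C / δ) (by norm_num : (1 : ℝ) < 2)
  refine ⟨J, fun j hj t ht => ?_⟩
  have h1 : (2 : ℝ) ^ J ≤ 2 ^ j := pow_le_pow_right₀ (by norm_num) hj
  have h2 := hC j t ht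
  rw [div_lt_iff₀ hδ] at hJ
  by_contra hcon
  push Not at hcon
  have h3 : (0 : ℝ) < 2 ^ j := by positivity
  nlinarith

lemma abs_pr_le {u : ℕ → ℝ} {R : ℝ} (hR : 0 ≤ R) (h : ∀ j, |u j| ≤ R) (j : ℕ) : |pr u j| ≤ R := by
  cases j with
  | zero => simpa [pr] using hR
  | succ j => exact h j

lemma abs_mul_sub_mul_le {a b a' b' R e : ℝ} (ha : |a| ≤ R) (hb' : |b'| ≤ R) (h1 : |a - a'| ≤ e)
    (h2 : |b - b'| ≤ e) : |a * b - a' * b'| ≤ 2 * R * e := by
  have : a * b - a' * b' = a * (b - b') + (a - a') * b' := by ring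
  rw [this]
  have hR : 0 ≤ R := (abs_nonneg _).trans ha
  have he : 0 ≤ e := (abs_nonneg _).trans h1
  calc |a * (b - b') + (a - a') * b'| ≤ |a * (b - b')| + |(a - a') * b'| := abs_add_le _ _
    _ = |a| * |b - b'| + |a - a'| * |b'| := by rw [abs_mul, abs_mul]
    _ ≤ R * e + e * R := by gcongr
    _ = 2 * R * e := by ring

lemma abs_coef_mul_le {c x M : ℝ} (hc0 : 0 ≤ c) (hc : c ≤ 1) (hx : |x| ≤ M) : |c * x| ≤ M := by
  rw [abs_mul, abs_of_nonneg hc0]
  nlinarith [abs_nonneg x]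

lemma N_lip {p : Par} (hp : p.OK) {u v : ℕ → ℝ} {R e : ℝ} (hR : 0 ≤ R) (he : 0 ≤ e)
    (hu : ∀ j, |u j| ≤ R) (hv : ∀ j, |v j| ≤ R) (huv : ∀ j, |u j - v j| ≤ e) (j : ℕ) :
    |N p u j - N p v j| ≤ 8 * R * e := by
  have hpr : |pr u j - pr v j| ≤ e := by
    cases j with
    | zero => simpa [pr] using he
    | succ j => exact huv j
  have h1 := abs_mul_sub_mul_le (abs_pr_le hR hu j) (hv j) hpr (huv j)
  have h2 := abs_coef_mul_le hp.β_nonneg hp.β_le
    (abs_mul_sub_mul_le (hu (j + 1)) (hv j) (huv (j + 1)) (huv j))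
  have h3 := abs_coef_mul_le hp.η_nonneg (hp.η_le.trans (by norm_num))
    (abs_mul_sub_mul_le (abs_pr_le hR hu j) (abs_pr_le hR hv j) hpr hpr)
  have h4 := abs_coef_mul_le (hp.g_nonneg j) (hp.g_le j)
    (abs_mul_sub_mul_le (hu (j + 1)) (hv (j + 1)) (huv (j + 1)) (huv (j + 1)))
  have : N p u j - N p v j = (pr u j * u j - pr v j * v j)
      - p.β * (u (j + 1) * u j - v (j + 1) * v j)
      + p.η * (pr u j * pr u j - pr v j * pr v j)
      - p.g j * (u (j + 1) * u (j + 1) - v (j + 1) * v (j + 1)) := by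
    unfold N; ring
  rw [this, abs_le]
  rw [abs_le] at h1 h2 h3 h4
  constructor <;> linarith [h1.1, h1.2, h2.1, h2.2, h3.1, h3.2, h4.1, h4.2]

lemma hasDerivAt_bar (δ K t0 t : ℝ) :
    HasDerivAt (fun s => δ * Real.exp (K * (s - t0))) (K * (δ * Real.exp (K * (t - t0)))) t := by
  have h : HasDerivAt (fun s => K * (s - t0)) K t := by
    simpa using ((hasDerivAt_id t).sub_const t0).const_mul K
  exact (h.exp.const_mul δ).congr_deriv (by ring)

/-- uniqueness. -/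
lemma unique {p : Par} (hp : p.OK) {u v : ℕ → ℝ → ℝ} {t0 t1 : ℝ} (hu : Sol p u t0 t1)
    (hv : Sol p v t0 t1) (du : Dec u t0 t1) (dv : Dec v t0 t1) (h0 : ∀ j, u j t0 = v j t0) :
    ∀ j, ∀ t ∈ Icc t0 t1, u j t = v j t := by
  obtain ⟨R1, hR1, hu1⟩ := du.bound
  obtain ⟨R2, hR2, hv1⟩ := dv.bound
  set R := max R1 R2 with hR
  have hR0 : 0 ≤ R := le_max_of_le_left hR1
  set K := 8 * R + 1 with hK
  have key : ∀ δ : ℝ, 0 < δ → ∀ t ∈ Icc t0 t1, ∀ i : ℕ × Bool,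
      0 ≤ δ * Real.exp (K * (t - t0)) + (if i.2 then 1 else -1) * (u i.1 t - v i.1 t) := by
    intro δ hδ
    obtain ⟨J1, hJ1⟩ := du.small (half_pos hδ)
    obtain ⟨J2, hJ2⟩ := dv.small (half_pos hδ)
    refine barrier (fun (i : ℕ × Bool) t =>
      δ * Real.exp (K * (t - t0)) + (if i.2 then 1 else -1) * (u i.1 t - v i.1 t)) t0 t1
      (Iio (max J1 J2) ×ˢ univ) ((finite_Iio _).prod finite_univ) ?_ ?_ ?_ ?_
    · intro i
      have := (hu i.1).1
      have := (hv i.1).1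
      fun_prop
    · rintro ⟨j, b⟩ hi t ht
      have hj : max J1 J2 ≤ j := by simpa using hi
      have h1 := hJ1 j (le_of_max_le_left hj) t ht
      have h2 := hJ2 j (le_of_max_le_right hj) t ht
      have h3 : 1 ≤ Real.exp (K * (t - t0)) :=
        Real.one_le_exp (mul_nonneg (by positivity) (by linarith [ht.1]))
      rw [abs_lt] at h1 h2
      have h4 : δ ≤ δ * Real.exp (K * (t - t0)) := by nlinarith
      cases b <;> simp <;> linarith [h1.1, h1.2, h2.1, h2.2]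
    · intro i
      simp [h0, hδ]
    · rintro t ht hall ⟨j, b⟩ hz
      have htI : t ∈ Icc t0 t1 := Ioo_subset_Icc_self ht
      set e := δ * Real.exp (K * (t - t0)) with he
      have he0 : 0 < e := by positivity
      have huv : ∀ i, |u i t - v i t| ≤ e := by
        intro i
        have h1 := hall (i, true)
        have h2 := hall (i, false)
        simp at h1 h2
        rw [abs_le]; constructor <;> linarith
      have hl := N_lip hp (u := fun i => u i t) (v := fun i => v i t) hR0 he0.le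
        (fun i => (hu1 i t htI).trans (le_max_left _ _))
        (fun i => (hv1 i t htI).trans (le_max_right _ _)) huv j
      refine ⟨_, ?_, (hasDerivAt_bar δ K t0 t).add
        ((((hu j).2 t ht).sub ((hv j).2 t ht)).const_mul (if b then (1 : ℝ) else -1))⟩
      have hd := hp.d_nonneg j
      rw [abs_le] at hl
      unfold F
      cases b
      · simp only [Bool.false_eq_true, if_false] at hz ⊢
        have : u j t - v j t = e := by linarith
        have h2 : p.d j * (u j t - v j t) = p.d j * e := by rw [this]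
        nlinarith [hl.1, hl.2, mul_nonneg hd he0.le]
      · simp only [if_true] at hz ⊢
        have : u j t - v j t = -e := by linarith
        have h2 : p.d j * (u j t - v j t) = p.d j * (-e) := by rw [this]
        nlinarith [hl.1, hl.2, mul_nonneg hd he0.le]
  intro j t ht
  have hE : 0 < Real.exp (K * (t - t0)) := Real.exp_pos _
  have : |u j t - v j t| ≤ 0 := by
    refine le_of_forall_pos_le_add (fun ε hε => ?_)
    have h1 := key (ε / Real.exp (K * (t - t0))) (by positivity) t ht (j, true)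
    have h2 := key (ε / Real.exp (K * (t - t0))) (by positivity) t ht (j, false)
    rw [div_mul_cancel₀ _ hE.ne'] at h1 h2
    simp at h1 h2
    rw [zero_add, abs_le]; constructor <;> linarith
  have := abs_nonpos_iff.mp this
  linarith

end Pool.Agent.Work.MP_6bf1e5_an.Mixed
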