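import Mathlib
import Pool.Agent.Work.MP_6bf1e5_an.Mixed.Basic

/-!
Primitives of the modes and the time dependent invariant cone.
-/

set_option autoImplicit false

namespace Pool.Agent.Work.MP_6bf1e5_an.Mixed

open Set Filter Topology

lemma mono_of_der {f f' : ℝ → ℝ} {a b : ℝ} (hab : a ≤ b) (hc : ContinuousOn f (Icc a b))
    (hd : ∀ t ∈ Ioo a b, HasDerivAt f (f' t) t) (hpos : ∀ t ∈ Ioo a b, 0 ≤ f' t) : f a ≤ f b := by
  rcases hab.eq_or_lt with h | h
  · rw [h]
  · obtain ⟨c, hc1, hc2⟩ := exists_hasDerivAt_eq_slope f f' h hc hd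
    have h1 := hpos c hc1
    rw [hc2, le_div_iff₀ (by linarith)] at h1
    linarith

/-- primitive of the modulus of a mode. -/
noncomputable def I (u : ℕ → ℝ → ℝ) (k : ℕ) (t : ℝ) : ℝ := ∫ s in (0 : ℝ)..t, |u k s|

lemma I_zero (u : ℕ → ℝ → ℝ) (k : ℕ) : I u k 0 = 0 := by simp [I]

lemma I_cont {p : Par} {u : ℕ → ℝ → ℝ} {T : ℝ} (hu : Sol p u 0 T) (hT : 0 ≤ T) (k : ℕ) :
    ContinuousOn (I u k) (Icc 0 T) := by
  have h1 : ContinuousOn (fun s => |u k s|) (uIcc 0 T) := by
    rw [uIcc_of_le hT]; exact (hu k).1.abs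
  have h2 := intervalIntegral.continuousOn_primitive_interval' (μ := MeasureTheory.volume)
    h1.intervalIntegrable left_mem_uIcc
  rw [uIcc_of_le hT] at h2
  exact h2

lemma I_der {p : Par} {u : ℕ → ℝ → ℝ} {T : ℝ} (hu : Sol p u 0 T) (k : ℕ) {t : ℝ}
    (ht : t ∈ Ioo 0 T) : HasDerivAt (I u k) |u k t| t := by
  have h0 : ContinuousOn (fun s => |u k s|) (Icc 0 T) := (hu k).1.abs
  have h1 : ContinuousOn (fun s => |u k s|) (uIcc 0 t) := by
    rw [uIcc_of_le ht.1.le]; exact h0.mono (Icc_subset_Icc le_rfl ht.2.le)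
  have h2 : ContinuousOn (fun s => |u k s|) (Ioo 0 T) := h0.mono Ioo_subset_Icc_self
  exact intervalIntegral.integral_hasDerivAt_right h1.intervalIntegrable
    (h2.stronglyMeasurableAtFilter isOpen_Ioo t ht) (h2.continuousAt (Ioo_mem_nhds ht.1 ht.2))

lemma I_mono {p : Par} {u : ℕ → ℝ → ℝ} {T : ℝ} (hu : Sol p u 0 T) (k : ℕ) {s t : ℝ}
    (hs : 0 ≤ s) (hst : s ≤ t) (ht : t ≤ T) : I u k s ≤ I u k t :=
  mono_of_der hst ((I_cont hu (by linarith) k).mono (Icc_subset_Icc hs ht))
    (fun r hr => I_der hu k ⟨by linarith [hr.1], by linarith [hr.2]⟩) (fun _ _ => abs_nonneg _)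

lemma I_nonneg {p : Par} {u : ℕ → ℝ → ℝ} {T : ℝ} (hu : Sol p u 0 T) (k : ℕ) {t : ℝ}
    (ht : t ∈ Icc 0 T) : 0 ≤ I u k t := by
  have := I_mono hu k le_rfl ht.1 ht.2
  rwa [I_zero] at this

lemma cone2_ineq {η β g g' c y z w v e R B : ℝ} (hη0 : 0 ≤ η) (hη : η ≤ 1) (hβ0 : 0 ≤ β)
    (hβ : β ≤ 1) (hg0 : 0 ≤ g) (hg : g ≤ 1) (hg0' : 0 ≤ g') (he0 : 0 ≤ e)
    (hc0 : 0 ≤ c) (hc : c ≤ R) (hcc : (β + g * c) * c ≤ 1)
    (hy : |y| ≤ B) (hz : |z| ≤ B) (hw : |w| ≤ B) (hv : |v| ≤ B)
    (h0 : -e ≤ y) (h1 : -e ≤ z) (h2 : w = c * z + (R + 1) * e) (h3 : -e ≤ v) :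
    -(10 * (R + 1) ^ 2 * B * e) ≤ (2 * |w| + η * |z|) * z
      + c * ((y - β * w) * z + η * y ^ 2 - g * w ^ 2)
      - ((z - β * v) * w + η * z ^ 2 - g' * v ^ 2) := by
  have hR : 0 ≤ R := hc0.trans hc
  have hB : 0 ≤ B := (abs_nonneg _).trans hy
  have hBe : 0 ≤ B * e := mul_nonneg hB he0
  have p1 : 0 ≤ c * (η * y ^ 2) := by positivity
  have p2 : 0 ≤ g' * v ^ 2 := by positivity
  rcases le_or_gt 0 z with hz0 | hz0
  · have hw0 : 0 ≤ w := by rw [h2]; positivity
    rw [abs_of_nonneg hw0] at *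
    rw [abs_of_nonneg hz0] at *
    have a1 : 0 ≤ w * z * (1 - (β + g * c) * c) := by
      have : 0 ≤ 1 - (β + g * c) * c := by linarith
      positivity
    have a2 : -(R * (B * e)) ≤ c * (y * z) := by
      have b1 : -(B * e) ≤ y * z := by nlinarith
      nlinarith
    have a3 : -(B * e) ≤ β * (v * w) := by
      have b1 : -(B * e) ≤ v * w := by nlinarith
      nlinarith
    have a4 : c * g * w * ((R + 1) * e) ≤ R * (R + 1) * (B * e) := by
      have b1 : c * g ≤ R := by nlinarith
      have b2 : c * g * w ≤ R * B := mul_le_mul b1 hw hw0 hR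
      have b3 : 0 ≤ (R + 1) * e := by positivity
      nlinarith
    have e1 : (2 * w + η * z) * z + c * ((y - β * w) * z + η * y ^ 2 - g * w ^ 2)
        - ((z - β * v) * w + η * z ^ 2 - g' * v ^ 2) =
        w * z * (1 - (β + g * c) * c) + c * (y * z) + β * (v * w) + c * (η * y ^ 2) + g' * v ^ 2
          - c * g * w * (w - c * z) := by ring
    have e2 : w - c * z = (R + 1) * e := by linarith
    rw [e1, e2]
    nlinarith [mul_nonneg hR hBe, mul_nonneg (mul_nonneg hR hR) hBe]
  · have hze : |z| ≤ e := by rw [abs_of_neg hz0]; linarith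
    have hwe : |w| ≤ (2 * R + 1) * e := by
      rw [h2, abs_le]; constructor <;> nlinarith
    have a1 : |(2 * |w| + η * |z|) * z| ≤ 3 * B * e := by
      rw [abs_mul]
      refine mul_le_mul ?_ hze (abs_nonneg _) (by positivity)
      rw [abs_of_nonneg (by positivity)]
      nlinarith [abs_nonneg z]
    have a2 : |c * (y * z)| ≤ R * (B * e) := by
      rw [abs_mul, abs_mul, abs_of_nonneg hc0]; gcongr
    have a3 : |c * (β * (w * z))| ≤ R * (B * e) := by
      rw [abs_mul, abs_of_nonneg hc0]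
      refine mul_le_mul hc (abs_coef_mul_le hβ0 hβ ?_) (abs_nonneg _) hR
      rw [abs_mul]; gcongr
    have a4 : |c * (g * (w * w))| ≤ R * (B * ((2 * R + 1) * e)) := by
      rw [abs_mul, abs_of_nonneg hc0]
      refine mul_le_mul hc (abs_coef_mul_le hg0 hg ?_) (abs_nonneg _) hR
      rw [abs_mul]; gcongr
    have a5 : |w * z| ≤ B * e := by rw [abs_mul]; gcongr
    have a6 : |β * (v * w)| ≤ B * ((2 * R + 1) * e) := by
      refine abs_coef_mul_le hβ0 hβ ?_
      rw [abs_mul]; gcongr
    have a7 : |η * (z * z)| ≤ B * e := by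
      refine abs_coef_mul_le hη0 hη ?_
      rw [abs_mul]; gcongr
    rw [abs_le] at a1 a2 a3 a4 a5 a6 a7
    have e1 : (2 * |w| + η * |z|) * z + c * ((y - β * w) * z + η * y ^ 2 - g * w ^ 2)
        - ((z - β * v) * w + η * z ^ 2 - g' * v ^ 2) =
        (2 * |w| + η * |z|) * z + c * (y * z) - c * (β * (w * z)) + c * (η * y ^ 2)
          - c * (g * (w * w)) - w * z + β * (v * w) - η * (z * z) + g' * v ^ 2 := by ring
    rw [e1]
    nlinarith [a1.1, a2.1, a3.2, a4.2, a5.2, a6.1, a7.2, mul_nonneg hR hBe,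
      mul_nonneg (mul_nonneg hR hR) hBe]

/-- the slope of the cone. -/
noncomputable def cf (p : Par) (u : ℕ → ℝ → ℝ) (k : ℕ) (t : ℝ) : ℝ :=
  2 * I u (k + 1) t + p.η * I u k t

lemma cf_bounds {p : Par} (hp : p.OK) {u : ℕ → ℝ → ℝ} {T K : ℝ} (hu : Sol p u 0 T)
    (hK : ∀ k, ∀ t ∈ Icc 0 T, I u k t ≤ K) (k : ℕ) {t : ℝ} (ht : t ∈ Icc 0 T) :
    0 ≤ cf p u k t ∧ cf p u k t ≤ 3 * K := by
  have h1 := I_nonneg hu k ht
  have h2 := I_nonneg hu (k + 1) ht
  have h3 := hK k t ht
  have h4 := hK (k + 1) t ht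
  have h5 := hp.η_nonneg
  have h6 := hp.η_le
  unfold cf
  constructor
  · positivity
  · nlinarith

lemma cone2 {p : Par} (hp : p.OK) {u : ℕ → ℝ → ℝ} {T K γ : ℝ} (hT : 0 ≤ T) (hu : Sol p u 0 T)
    (du : Dec u 0 T) (hK : ∀ k, ∀ t ∈ Icc 0 T, I u k t ≤ K) (hγ : ∀ j, p.g j ≤ γ)
    (hc : (p.β + γ * (3 * K)) * (3 * K) ≤ 1) (h0 : 0 ≤ u 0 0) (h1 : ∀ k, u (k + 1) 0 = 0) :
    ∀ t ∈ Icc 0 T, ∀ k, 0 ≤ u k t ∧ u (k + 1) t ≤ cf p u k t * u k t := by
  obtain ⟨B, hB0, hB⟩ := du.bound
  set R := 3 * K with hR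
  have hR0 : 0 ≤ R := by
    have := cf_bounds hp hu hK 0 (left_mem_Icc.mpr hT)
    linarith [this.1, this.2]
  set L := 10 * (R + 1) ^ 2 * B + 1 with hL
  have hL0 : 0 < L := by positivity
  have hη0 := hp.η_nonneg
  have hη := hp.η_le
  have key : ∀ δ : ℝ, 0 < δ → ∀ t ∈ Icc 0 T, ∀ i : ℕ × Bool,
      0 ≤ (if i.2 then δ * Real.exp (L * (t - 0)) + u i.1 t else
        (R + 1) * (δ * Real.exp (L * (t - 0))) + (cf p u i.1 t * u i.1 t - u (i.1 + 1) t)) := by
    intro δ hδ
    obtain ⟨J, hJ⟩ := du.small hδ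
    refine barrier (fun (i : ℕ × Bool) t => if i.2 then δ * Real.exp (L * (t - 0)) + u i.1 t else
        (R + 1) * (δ * Real.exp (L * (t - 0))) + (cf p u i.1 t * u i.1 t - u (i.1 + 1) t)) 0 T
      (Iio J ×ˢ univ) ((finite_Iio _).prod finite_univ) ?_ ?_ ?_ ?_
    · rintro ⟨i, b⟩
      have := (hu i).1
      have := (hu (i + 1)).1
      have := I_cont hu hT i
      have := I_cont hu hT (i + 1)
      cases b <;> simp only [Bool.false_eq_true, if_false, if_true, cf] <;> fun_prop
    · rintro ⟨j, b⟩ hi t ht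
      have hj : J ≤ j := by simpa using hi
      have h1 := hJ j hj t ht
      have h2 := hJ (j + 1) (by omega) t ht
      have h3 : 1 ≤ Real.exp (L * (t - 0)) :=
        Real.one_le_exp (mul_nonneg (by positivity) (by linarith [ht.1]))
      rw [abs_lt] at h1 h2
      have h4 : δ ≤ δ * Real.exp (L * (t - 0)) := by nlinarith
      have h5 := cf_bounds hp hu hK j ht
      cases b <;> simp only [Bool.false_eq_true, if_false, if_true]
      · have h6 : -(R * δ) ≤ cf p u j t * u j t := by nlinarith [h5.1, h5.2, h1.1]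
        nlinarith [h2.2]
      · linarith [h1.1]
    · rintro ⟨i, b⟩
      cases b <;> simp only [Bool.false_eq_true, if_false, if_true, sub_self, mul_zero,
        Real.exp_zero, mul_one]
      · simp only [cf, I_zero, h1]
        simp only [mul_zero, add_zero, zero_mul, sub_zero]
        positivity
      · cases i with
        | zero => linarith
        | succ i => rw [h1]; linarith
    · rintro t ht hall ⟨j, b⟩ hz
      have htI : t ∈ Icc 0 T := Ioo_subset_Icc_self ht
      set e := δ * Real.exp (L * (t - 0)) with he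
      have he0 : 0 < e := by positivity
      have hpos : ∀ k, -e ≤ u k t := fun k => by
        have := hall (k, true); simp only [if_true] at this; linarith
      have hcone : ∀ k, u (k + 1) t ≤ cf p u k t * u k t + (R + 1) * e := fun k => by
        have := hall (k, false); simp only [Bool.false_eq_true, if_false] at this; linarith
      have hd := hp.d_nonneg j
      have hd' : p.d j ≤ p.d (j + 1) := hp.d_mono (by omega)
      have hcf := cf_bounds hp hu hK j htI
      have hy : |pr (fun i => u i t) j| ≤ B := abs_pr_le hB0 (fun i => hB i t htI) j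
      have hy' : -e ≤ pr (fun i => u i t) j := by
        cases j with
        | zero => simp [pr]; exact he0.le
        | succ j => exact hpos j
      cases b
      · simp only [Bool.false_eq_true, if_false] at hz ⊢
        have hcd : HasDerivAt (cf p u j) (2 * |u (j + 1) t| + p.η * |u j t|) t :=
          ((I_der hu (j + 1) ht).const_mul 2).add ((I_der hu j ht).const_mul p.η)
        refine ⟨_, ?_, ((hasDerivAt_bar δ L 0 t).const_mul (R + 1)).add
          ((hcd.mul ((hu j).2 t ht)).sub ((hu (j + 1)).2 t ht))⟩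
        have hw : u (j + 1) t = cf p u j t * u j t + (R + 1) * e := by linarith
        have hcc : (p.β + p.g j * cf p u j t) * cf p u j t ≤ 1 := by
          refine le_trans ?_ hc
          have := hp.β_nonneg
          have := hp.g_nonneg j
          have h7 : p.g j * cf p u j t ≤ γ * R :=
            mul_le_mul (hγ j) hcf.2 hcf.1 (by linarith [hγ j])
          exact mul_le_mul (by linarith) hcf.2 hcf.1
            (by nlinarith [mul_nonneg (hp.g_nonneg j) hcf.1])
        have := cone2_ineq hη0 (by linarith) hp.β_nonneg hp.β_le (hp.g_nonneg j) (hp.g_le j)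
          (hp.g_nonneg (j + 1)) he0.le hcf.1 hcf.2 hcc hy (hB j t htI) (hB (j + 1) t htI)
          (hB (j + 1 + 1) t htI) hy' (hpos j) hw (hpos (j + 1 + 1))
        have hv : 0 ≤ -(cf p u j t * (p.d j * u j t)) + p.d (j + 1) * u (j + 1) t := by
          rw [hw]
          have a0 : -(R * e) ≤ cf p u j t * u j t := by nlinarith [hcf.1, hcf.2, hpos j]
          have a1 : 0 ≤ (p.d (j + 1) - p.d j) * (cf p u j t * u j t + R * e) :=
            mul_nonneg (by linarith) (by linarith)
          have a2 : 0 ≤ p.d j * (R * e) := by positivity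
          have a3 : 0 ≤ p.d (j + 1) * e := mul_nonneg (by linarith) he0.le
          nlinarith
        have e1 : F p (fun i => u i t) (j + 1) = -p.d (j + 1) * u (j + 1) t +
            ((u j t - p.β * u (j + 1 + 1) t) * u (j + 1) t + p.η * u j t ^ 2
              - p.g (j + 1) * u (j + 1 + 1) t ^ 2) := rfl
        have e2 : F p (fun i => u i t) j = -p.d j * u j t +
            ((pr (fun i => u i t) j - p.β * u (j + 1) t) * u j t + p.η * pr (fun i => u i t) j ^ 2
              - p.g j * u (j + 1) t ^ 2) := rfl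
        rw [e1, e2, ← he]
        have a4 : 10 * (R + 1) ^ 2 * B * e < (R + 1) * (L * e) := by
          have : 0 ≤ R * (L * e) := by positivity
          rw [hL] at this ⊢
          nlinarith
        nlinarith
      · simp only [if_true] at hz ⊢
        refine ⟨_, ?_, (hasDerivAt_bar δ L 0 t).add ((hu j).2 t ht)⟩
        have h2 := hcone j
        have h3 := hpos (j + 1)
        have hz' : u j t = -e := by linarith
        have e2 : F p (fun i => u i t) j = -p.d j * u j t +
            ((pr (fun i => u i t) j - p.β * u (j + 1) t) * u j t + p.η * pr (fun i => u i t) j ^ 2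
              - p.g j * u (j + 1) t ^ 2) := rfl
        rw [e2, ← he]
        rw [hz'] at h2 ⊢
        have hw : |u (j + 1) t| ≤ (R + 1) * e := by
          rw [abs_le]; constructor <;> nlinarith [hcf.1, mul_nonneg hR0 he0.le]
        have b2 := hB (j + 1) t htI
        have b3 := abs_coef_mul_le hp.β_nonneg hp.β_le b2
        have b4 : u (j + 1) t ^ 2 ≤ B * ((R + 1) * e) := by
          rw [← sq_abs, sq]; gcongr
        have b5 : p.g j * u (j + 1) t ^ 2 ≤ B * ((R + 1) * e) := by
          have := hp.g_le j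
          nlinarith [sq_nonneg (u (j + 1) t)]
        have b6 : 0 ≤ p.η * pr (fun i => u i t) j ^ 2 := by positivity
        rw [abs_le] at hy b3
        have b7 : (pr (fun i => u i t) j - p.β * u (j + 1) t) * e ≤ 2 * B * e := by
          gcongr; linarith [hy.2, b3.1]
        have b8 : 0 ≤ B * e := by positivity
        rw [hL]
        nlinarith [mul_nonneg hd he0.le, mul_nonneg hR0 b8, mul_nonneg (mul_nonneg hR0 hR0) b8]
  intro t ht k
  have hE : 0 < Real.exp (L * (t - 0)) := Real.exp_pos _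
  constructor
  · refine le_of_forall_pos_le_add (fun ε hε => ?_)
    have := key (ε / Real.exp (L * (t - 0))) (by positivity) t ht (k, true)
    simp only [if_true] at this
    rw [div_mul_cancel₀ _ hE.ne'] at this
    linarith
  · refine le_of_forall_pos_le_add (fun ε hε => ?_)
    have := key (ε / (R + 1) / Real.exp (L * (t - 0))) (by positivity) t ht (k, false)
    simp only [Bool.false_eq_true, if_false] at this
    rw [div_mul_cancel₀ _ hE.ne', mul_div_cancel₀ _ (by positivity)] at this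
    linarith

end Pool.Agent.Work.MP_6bf1e5_an.Mixed
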