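import Mathlib
import Pool.Agent.Work.MP_6bf1e5_an.Mixed.Basic

/-!
Local existence of rapidly decaying solutions by a contraction argument.
-/

set_option autoImplicit false

namespace Pool.Agent.Work.MP_6bf1e5_an.Mixed

open Set Filter Topology BoundedContinuousFunction

lemma N_bound {p : Par} (hp : p.OK) {u : ℕ → ℝ} {R : ℝ} (hR : 0 ≤ R) (hu : ∀ j, |u j| ≤ R)
    (j : ℕ) : |N p u j| ≤ 8 * R * R := by
  have := N_lip hp (u := u) (v := fun _ => 0) hR hR hu (fun _ => by simpa using hR)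
    (fun j => by simpa using hu j) j
  have h0 : N p (fun _ => 0) j = 0 := by
    cases j <;> simp [N, pr]
  rwa [h0, sub_zero] at this

lemma N_weight {p : Par} (hp : p.OK) {u : ℕ → ℝ} {R w E : ℝ} (hR : 0 ≤ R) (hw : 1 ≤ w)
    (hu : ∀ j, |u j| ≤ R) (hE : ∀ j, w ^ j * |u j| ≤ E) (j : ℕ) :
    w ^ j * |N p u j| ≤ R * (3 + w) * E := by
  have hw0 : 0 < w := by linarith
  have hwj : 0 < w ^ j := by positivity
  have hE0 : 0 ≤ E := le_trans (by positivity) (hE 0)
  have hprw : w ^ j * |pr u j| ≤ w * E := by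
    cases j with
    | zero => simp [pr]; positivity
    | succ j =>
      have := hE j
      simp only [pr, pow_succ]
      nlinarith
  have hnext : w ^ j * |u (j + 1)| ≤ E := by
    have := hE (j + 1)
    rw [pow_succ] at this
    have h2 : 0 ≤ w ^ j * |u (j + 1)| := by positivity
    nlinarith
  have hpr := abs_pr_le hR hu j
  have h1 : |pr u j * u j| ≤ R * |u j| := by rw [abs_mul]; gcongr
  have h2 : |p.β * (u (j + 1) * u j)| ≤ R * |u j| :=
    abs_coef_mul_le hp.β_nonneg hp.β_le (by rw [abs_mul]; gcongr; exact hu _)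
  have h3 : |p.η * (pr u j * pr u j)| ≤ R * |pr u j| :=
    abs_coef_mul_le hp.η_nonneg (hp.η_le.trans (by norm_num)) (by rw [abs_mul]; gcongr)
  have h4 : |p.g j * (u (j + 1) * u (j + 1))| ≤ R * |u (j + 1)| :=
    abs_coef_mul_le (hp.g_nonneg j) (hp.g_le j) (by rw [abs_mul]; gcongr; exact hu _)
  have h5 : |N p u j| ≤ R * |u j| + R * |u j| + R * |pr u j| + R * |u (j + 1)| := by
    have : N p u j = pr u j * u j - p.β * (u (j + 1) * u j) + p.η * (pr u j * pr u j)
        - p.g j * (u (j + 1) * u (j + 1)) := by unfold N; ring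
    rw [this, abs_le]
    rw [abs_le] at h1 h2 h3 h4
    constructor <;> linarith [h1.1, h1.2, h2.1, h2.2, h3.1, h3.2, h4.1, h4.2]
  calc w ^ j * |N p u j| ≤ w ^ j * (R * |u j| + R * |u j| + R * |pr u j| + R * |u (j + 1)|) := by
        gcongr
    _ = R * (w ^ j * |u j| + w ^ j * |u j| + w ^ j * |pr u j| + w ^ j * |u (j + 1)|) := by ring
    _ ≤ R * (E + E + w * E + E) := by gcongr <;> exact hE j
    _ = R * (3 + w) * E := by ring

lemma duhamel_bound {d t0 c : ℝ} (hd : 0 ≤ d) (hc : t0 ≤ c) {n m : ℝ → ℝ} (hm : Continuous m)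
    (h : ∀ s ∈ Icc t0 c, |n s| ≤ m s) :
    |Real.exp (-d * (c - t0)) * ∫ s in t0..c, Real.exp (d * (s - t0)) * n s| ≤ ∫ s in t0..c, m s := by
  rw [← intervalIntegral.integral_const_mul, ← Real.norm_eq_abs]
  refine intervalIntegral.norm_integral_le_of_norm_le hc (Eventually.of_forall fun s hs => ?_)
    (hm.intervalIntegrable _ _)
  rw [← mul_assoc, ← Real.exp_add, Real.norm_eq_abs, abs_mul, abs_of_pos (Real.exp_pos _)]
  have h1 : Real.exp (-d * (c - t0) + d * (s - t0)) ≤ 1 := by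
    rw [Real.exp_le_one_iff]; nlinarith [hs.2]
  have h2 := h s ⟨hs.1.le, hs.2⟩
  nlinarith [abs_nonneg (n s), Real.exp_pos (-d * (c - t0) + d * (s - t0))]

lemma continuous_N (p : Par) (U : ℕ × ℝ →ᵇ ℝ) (j : ℕ) :
    Continuous (fun s => N p (fun i => U (i, s)) j) := by
  have hU : ∀ i, Continuous (fun s => U (i, s)) := fun i => by fun_prop
  have hpr : Continuous (fun s => pr (fun i => U (i, s)) j) := by
    cases j with
    | zero => exact continuous_const
    | succ j => exact hU j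
  unfold N
  have h1 := hU j
  have h2 := hU (j + 1)
  fun_prop

/-- the Duhamel map before clamping. -/
noncomputable def duh (p : Par) (u0 : ℕ → ℝ) (t0 : ℝ) (U : ℕ × ℝ →ᵇ ℝ) (j : ℕ) (c : ℝ) : ℝ :=
  Real.exp (-p.d j * (c - t0)) *
    (u0 j + ∫ s in t0..c, Real.exp (p.d j * (s - t0)) * N p (fun i => U (i, s)) j)

lemma hasDerivAt_duh (p : Par) (u0 : ℕ → ℝ) (t0 : ℝ) (U : ℕ × ℝ →ᵇ ℝ) (j : ℕ) (c : ℝ) :
    HasDerivAt (duh p u0 t0 U j) (-p.d j * duh p u0 t0 U j c + N p (fun i => U (i, c)) j) c := by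
  have hc : Continuous (fun s => Real.exp (p.d j * (s - t0)) * N p (fun i => U (i, s)) j) := by
    have := continuous_N p U j
    fun_prop
  have h1 : HasDerivAt (fun c => -p.d j * (c - t0)) (-p.d j) c := by
    simpa using ((hasDerivAt_id c).sub_const t0).const_mul (-p.d j)
  have h2 := (hc.deriv_integral _ t0 c)
  have h3 := (intervalIntegral.integral_hasDerivAt_right (hc.intervalIntegrable t0 c)
    (hc.stronglyMeasurableAtFilter _ _) hc.continuousAt).const_add (u0 j)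
  refine (h1.exp.mul h3).congr_deriv ?_
  unfold duh
  have : Real.exp (-p.d j * (c - t0)) * Real.exp (p.d j * (c - t0)) = 1 := by
    rw [← Real.exp_add]; simp
  rw [← mul_assoc (Real.exp (-p.d j * (c - t0))), this]
  ring

lemma duh_sub_bound {p : Par} (hp : p.OK) (u0 : ℕ → ℝ) {t0 c : ℝ} (hc : t0 ≤ c) (U : ℕ × ℝ →ᵇ ℝ)
    (j : ℕ) {m : ℝ → ℝ} (hm : Continuous m)
    (h : ∀ s ∈ Icc t0 c, |N p (fun i => U (i, s)) j| ≤ m s) :
    |duh p u0 t0 U j c| ≤ |u0 j| + ∫ s in t0..c, m s := by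
  unfold duh
  rw [mul_add]
  refine (abs_add_le _ _).trans (add_le_add ?_ (duhamel_bound (hp.d_nonneg j) hc hm h))
  rw [abs_mul, abs_of_pos (Real.exp_pos _)]
  have h1 : Real.exp (-p.d j * (c - t0)) ≤ 1 := by
    rw [Real.exp_le_one_iff]; nlinarith [hp.d_nonneg j]
  nlinarith [abs_nonneg (u0 j), Real.exp_pos (-p.d j * (c - t0))]

theorem local_exist {p : Par} (hp : p.OK) (u0 : ℕ → ℝ) (t0 R : ℝ) (hR : 0 < R)
    (hu0 : ∀ j, |u0 j| ≤ R) (hdec : ∀ w : ℝ, 1 ≤ w → ∃ C, ∀ j, w ^ j * |u0 j| ≤ C) :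
    ∃ u : ℕ → ℝ → ℝ, (∀ j, u j t0 = u0 j) ∧
      (∀ j, ∀ t ∈ Icc t0 (t0 + 1 / (32 * R)),
        HasDerivWithinAt (u j) (F p (fun i => u i t) j) (Icc t0 (t0 + 1 / (32 * R))) t) ∧
      ∀ w : ℝ, 1 ≤ w → ∃ C, ∀ j, ∀ t ∈ Icc t0 (t0 + 1 / (32 * R)), w ^ j * |u j t| ≤ C := by
  set τ := 1 / (32 * R) with hτ
  have hτ0 : 0 < τ := by positivity
  have hτR : τ * (32 * R) = 1 := by rw [hτ]; field_simp
  choose! C hC using hdec
  set cl : ℝ → ℝ := fun t => max t0 (min t (t0 + τ)) with hcl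
  have hclc : Continuous cl := by fun_prop
  have hclI : ∀ t, cl t ∈ Icc t0 (t0 + τ) := fun t =>
    ⟨le_max_left _ _, max_le (by linarith) (min_le_right _ _)⟩
  have hclid : ∀ t ∈ Icc t0 (t0 + τ), cl t = t := fun t ht => by
    simp only [hcl, min_eq_left ht.2, max_eq_right ht.1]
  have hUb : ∀ (U : ℕ × ℝ →ᵇ ℝ) x, |U x| ≤ ‖U‖ := fun U x => by
    simpa using U.norm_coe_le_norm x
  have hΦb : ∀ (U : ℕ × ℝ →ᵇ ℝ) (M : ℝ), 0 ≤ M → (∀ x, |U x| ≤ M) → ∀ (x : ℕ × ℝ),
      |duh p u0 t0 U x.1 (cl x.2)| ≤ R + τ * (8 * M * M) := by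
    intro U M hM hU x
    have h := duh_sub_bound hp u0 (hclI x.2).1 U x.1 (m := fun _ => 8 * M * M) continuous_const
      (fun s _ => N_bound hp hM (fun i => hU (i, s)) x.1)
    rw [intervalIntegral.integral_const, smul_eq_mul] at h
    have h2 : cl x.2 - t0 ≤ τ := by linarith [(hclI x.2).2]
    have h3 : (cl x.2 - t0) * (8 * M * M) ≤ τ * (8 * M * M) := by gcongr
    linarith [hu0 x.1]
  let Φ : (ℕ × ℝ →ᵇ ℝ) → (ℕ × ℝ →ᵇ ℝ) := fun U =>
    BoundedContinuousFunction.ofNormedAddCommGroup (fun x => duh p u0 t0 U x.1 (cl x.2))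
      (continuous_prod_of_discrete_left.mpr fun j =>
        (continuous_iff_continuousAt.mpr fun c => (hasDerivAt_duh p u0 t0 U j c).continuousAt).comp
          hclc)
      (R + τ * (8 * ‖U‖ * ‖U‖)) (fun x => hΦb U ‖U‖ (norm_nonneg _) (hUb U) x)
  have hΦ : ∀ U x, Φ U x = duh p u0 t0 U x.1 (cl x.2) := fun U x => rfl
  let S : Set (ℕ × ℝ →ᵇ ℝ) := {U | (∀ x, |U x| ≤ 2 * R) ∧ ∀ w, 1 ≤ w → ∀ x : ℕ × ℝ,
    w ^ x.1 * |U x| ≤ C w * Real.exp (2 * R * (3 + w) * (cl x.2 - t0))}
  have hSc : IsClosed S := by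
    have h1 : ∀ x : ℕ × ℝ, Continuous (fun U : ℕ × ℝ →ᵇ ℝ => U x) := fun x =>
      continuous_eval_const x
    simp only [S, ofPred_and, ofPred_forall]
    refine IsClosed.inter (isClosed_iInter fun x => isClosed_le (h1 x).abs continuous_const)
      (isClosed_iInter fun w => isClosed_iInter fun _ => isClosed_iInter fun x =>
        isClosed_le ((h1 x).abs.const_mul _) continuous_const)
  have hC0 : ∀ w, 1 ≤ w → 0 ≤ C w := fun w hw => le_trans (by positivity) (hC w hw 0)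
  have h0S : (0 : ℕ × ℝ →ᵇ ℝ) ∈ S := by
    refine ⟨fun x => by simp; positivity, fun w hw x => ?_⟩
    have := hC0 w hw
    simp; positivity
  have hmaps : MapsTo Φ S S := by
    rintro U ⟨hU1, hU2⟩
    refine ⟨fun x => ?_, fun w hw x => ?_⟩
    · rw [hΦ]
      refine (hΦb U (2 * R) (by positivity) hU1 x).trans ?_
      nlinarith
    · rw [hΦ]
      set A := 2 * R * (3 + w) with hA
      have hw0 : 0 < w ^ x.1 := by positivity
      have h := duh_sub_bound hp u0 (hclI x.2).1 U x.1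
        (m := fun s => (A * (C w * Real.exp (A * (s - t0)))) / w ^ x.1) (by fun_prop)
        (fun s hs => by
          rw [le_div_iff₀ hw0, mul_comm]
          have hs' : cl s = s := hclid s ⟨hs.1, hs.2.trans (hclI x.2).2⟩
          exact N_weight hp (by positivity) hw (fun i => hU1 (i, s))
            (fun i => by simpa [hs'] using hU2 w hw (i, s)) x.1)
      rw [intervalIntegral.integral_div,
        intervalIntegral.integral_eq_sub_of_hasDerivAt (fun s _ => hasDerivAt_bar (C w) A t0 s)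
          (Continuous.intervalIntegrable (by fun_prop) _ _)] at h
      have h2 := hC w hw x.1
      calc w ^ x.1 * |duh p u0 t0 U x.1 (cl x.2)|
          ≤ w ^ x.1 * (|u0 x.1| + (C w * Real.exp (A * (cl x.2 - t0))
            - C w * Real.exp (A * (t0 - t0))) / w ^ x.1) := by gcongr
        _ = w ^ x.1 * |u0 x.1| + (C w * Real.exp (A * (cl x.2 - t0)) - C w) := by
            rw [sub_self, mul_zero, Real.exp_zero]; field_simp
        _ ≤ _ := by linarith
  have hcontr : ContractingWith (1 / 2 : NNReal) (hmaps.restrict Φ S S) := by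
    refine ⟨by norm_num, LipschitzWith.of_dist_le_mul fun U V => ?_⟩
    rw [Subtype.dist_eq, Subtype.dist_eq]
    simp only [MapsTo.val_restrict_apply]
    refine (BoundedContinuousFunction.dist_le (by positivity)).mpr fun x => ?_
    rw [hΦ, hΦ, Real.dist_eq]
    set e := dist (U : ℕ × ℝ →ᵇ ℝ) V with he
    have he0 : 0 ≤ e := dist_nonneg
    have hcU := continuous_N p U x.1
    have hcV := continuous_N p V x.1
    have h1 : duh p u0 t0 U x.1 (cl x.2) - duh p u0 t0 V x.1 (cl x.2) =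
        Real.exp (-p.d x.1 * (cl x.2 - t0)) * ∫ s in t0..cl x.2, Real.exp (p.d x.1 * (s - t0)) *
          (N p (fun i => (U : ℕ × ℝ →ᵇ ℝ) (i, s)) x.1 - N p (fun i => (V : ℕ × ℝ →ᵇ ℝ) (i, s)) x.1) := by
      unfold duh
      simp only [mul_sub (Real.exp (p.d x.1 * (_ - t0)))]
      rw [intervalIntegral.integral_sub (Continuous.intervalIntegrable (by fun_prop) _ _)
        (Continuous.intervalIntegrable (by fun_prop) _ _)]
      ring
    rw [h1]
    refine (duhamel_bound (hp.d_nonneg _) (hclI x.2).1 (m := fun _ => 8 * (2 * R) * e)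
      continuous_const (fun s _ => N_lip hp (by positivity) he0 (fun i => U.2.1 (i, s))
        (fun i => V.2.1 (i, s)) (fun i => ?_) x.1)).trans ?_
    · rw [← Real.dist_eq]; exact BoundedContinuousFunction.dist_coe_le_dist _
    · rw [intervalIntegral.integral_const, smul_eq_mul]
      have h2 : cl x.2 - t0 ≤ τ := by linarith [(hclI x.2).2]
      have h3 : (cl x.2 - t0) * (8 * (2 * R) * e) ≤ τ * (8 * (2 * R) * e) := by gcongr
      push_cast
      nlinarith
  obtain ⟨U, hUS, hfix, -⟩ := ContractingWith.exists_fixedPoint' hSc.isComplete hmaps hcontr h0S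
    (edist_ne_top _ _)
  have hU : ∀ j, ∀ t ∈ Icc t0 (t0 + τ), U (j, t) = duh p u0 t0 U j t := by
    intro j t ht
    have := hΦ U (j, t)
    rw [hfix] at this
    simpa [hclid t ht] using this
  refine ⟨fun j t => U (j, t), fun j => ?_, fun j t ht => ?_, fun w hw => ?_⟩
  · show U (j, t0) = u0 j
    rw [hU j t0 ⟨le_rfl, by linarith⟩]
    simp [duh]
  · have h := (hasDerivAt_duh p u0 t0 U j t).hasDerivWithinAt (s := Icc t0 (t0 + τ))
    refine (h.congr (fun s hs => hU j s hs) (hU j t ht)).congr_deriv ?_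
    unfold F
    simp only [hU j t ht]
  · refine ⟨C w * Real.exp (2 * R * (3 + w) * τ), fun j t ht => ?_⟩
    refine (hUS.2 w hw (j, t)).trans ?_
    have := hC0 w hw
    have h2 : cl t - t0 ≤ τ := by linarith [(hclI t).2]
    gcongr

end Pool.Agent.Work.MP_6bf1e5_an.Mixed
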