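import Mathlib
import Pool.Agent.Work.MP_6bf1e5_an.Mixed.Local

/-!
Maximal solutions.
-/

set_option autoImplicit false

namespace Pool.Agent.Work.MP_6bf1e5_an.Mixed

open Set Filter Topology

/-- rapidly decaying classical solution on `[0, T)` with given data. -/
structure Good (p : Par) (u0 : ℕ → ℝ) (u : ℕ → ℝ → ℝ) (T : ℝ) : Prop where
  init : ∀ j, u j 0 = u0 j
  der : ∀ j, ∀ t ∈ Ico 0 T, HasDerivWithinAt (u j) (F p (fun i => u i t) j) (Ici 0) t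
  dec : ∀ w : ℝ, 1 ≤ w → ∀ T' < T, ∃ C, ∀ j, ∀ t ∈ Icc 0 T', w ^ j * |u j t| ≤ C

lemma sol_of_der {p : Par} {u : ℕ → ℝ → ℝ} {T T' : ℝ}
    (h : ∀ j, ∀ t ∈ Ico 0 T, HasDerivWithinAt (u j) (F p (fun i => u i t) j) (Ici 0) t)
    (hT : T' < T) : Sol p u 0 T' := fun j =>
  ⟨fun t ht => ((h j t ⟨ht.1, ht.2.trans_lt hT⟩).continuousWithinAt).mono Icc_subset_Ici_self,
    fun t ht => (h j t ⟨ht.1.le, ht.2.trans hT⟩).hasDerivAt (Ici_mem_nhds ht.1)⟩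

lemma Good.sol {p : Par} {u0 : ℕ → ℝ} {u : ℕ → ℝ → ℝ} {T T' : ℝ} (h : Good p u0 u T)
    (hT : T' < T) : Sol p u 0 T' := sol_of_der h.der hT

lemma Good.dec2 {p : Par} {u0 : ℕ → ℝ} {u : ℕ → ℝ → ℝ} {T T' : ℝ} (h : Good p u0 u T)
    (hT : T' < T) : Dec u 0 T' := h.dec 2 (by norm_num) T' hT

lemma Good.unique {p : Par} (hp : p.OK) {u0 : ℕ → ℝ} {u v : ℕ → ℝ → ℝ} {T S : ℝ}
    (hu : Good p u0 u T) (hv : Good p u0 v S) {t : ℝ} (h0 : 0 ≤ t) (hT : t < T) (hS : t < S)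
    (j : ℕ) : u j t = v j t :=
  Mixed.unique hp (hu.sol hT) (hv.sol hS) (hu.dec2 hT) (hv.dec2 hS)
    (fun j => by rw [hu.init, hv.init]) j t ⟨h0, le_rfl⟩

lemma good_local {p : Par} (hp : p.OK) (u0 : ℕ → ℝ) (R : ℝ) (hR : 0 < R)
    (hu0 : ∀ j, |u0 j| ≤ R) (hdec : ∀ w : ℝ, 1 ≤ w → ∃ C, ∀ j, w ^ j * |u0 j| ≤ C) :
    ∃ u, Good p u0 u (1 / (32 * R)) := by
  obtain ⟨u, h1, h2, h3⟩ := local_exist hp u0 0 R hR hu0 hdec
  rw [zero_add] at h2 h3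
  refine ⟨u, h1, fun j t ht => ?_, fun w hw T' hT' => ?_⟩
  · refine (h2 j t (Ico_subset_Icc_self ht)).mono_of_mem_nhdsWithin ?_
    rw [← Ici_inter_Iic]
    exact inter_mem_nhdsWithin _ (Iic_mem_nhds ht.2)
  · obtain ⟨C, hC⟩ := h3 w hw
    exact ⟨C, fun j t ht => hC j t ⟨ht.1, ht.2.trans hT'.le⟩⟩

lemma Good.extend {p : Par} (hp : p.OK) {u0 : ℕ → ℝ} {u : ℕ → ℝ → ℝ} {T R : ℝ}
    (hu : Good p u0 u T) (hT : 0 < T) (hR : 0 < R) (hb : ∀ j, ∀ t ∈ Ico 0 T, |u j t| ≤ R) :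
    ∃ T', T < T' ∧ ∃ v, Good p u0 v T' := by
  set τ := 1 / (32 * R) with hτ
  have hτ0 : 0 < τ := by positivity
  set t0 := max 0 (T - τ / 2) with ht0
  have h00 : 0 ≤ t0 := le_max_left _ _
  have h0T : t0 < T := max_lt hT (by linarith)
  have hT1 : T < t0 + τ := by
    have := le_max_right 0 (T - τ / 2)
    linarith
  obtain ⟨v, h1, h2, h3⟩ := local_exist hp (fun j => u j t0) t0 R hR
    (fun j => hb j t0 ⟨h00, h0T⟩) (fun w hw => by
      obtain ⟨C, hC⟩ := hu.dec w hw t0 h0T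
      exact ⟨C, fun j => hC j t0 ⟨h00, le_rfl⟩⟩)
  rw [← hτ] at h2 h3
  have hvs : Sol p v t0 (t0 + τ) := fun j =>
    ⟨fun t ht => (h2 j t ht).continuousWithinAt,
      fun t ht => (h2 j t (Ioo_subset_Icc_self ht)).hasDerivAt (Icc_mem_nhds ht.1 ht.2)⟩
  have hvd : Dec v t0 (t0 + τ) := h3 2 (by norm_num)
  have huv : ∀ j, ∀ t ∈ Ico t0 T, u j t = v j t := fun j t ht =>
    Mixed.unique hp ((hu.sol ht.2).mono h00 le_rfl) (hvs.mono le_rfl (by linarith [ht.2]))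
      ((hu.dec2 ht.2).mono h00 le_rfl) (hvd.mono le_rfl (by linarith [ht.2]))
      (fun j => (h1 j).symm) j t ⟨ht.1, le_rfl⟩
  let z : ℕ → ℝ → ℝ := fun j t => if t ≤ t0 then u j t else v j t
  have hzu : ∀ j t, t < T → z j t = u j t := fun j t ht => by
    by_cases h : t ≤ t0
    · simp [z, h]
    · simp only [z, h, if_false]
      exact (huv j t ⟨(not_le.mp h).le, ht⟩).symm
  have hzv : ∀ j t, t0 < t → z j t = v j t := fun j t ht => by
    simp [z, not_le.mpr ht]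
  refine ⟨t0 + τ, hT1, z, fun j => ?_, fun j t ht => ?_, fun w hw T' hT' => ?_⟩
  · rw [hzu j 0 hT, hu.init]
  · by_cases h : t < T
    · have e : (fun i => z i t) = fun i => u i t := funext fun i => hzu i t h
      rw [e]
      refine (hu.der j t ⟨ht.1, h⟩).congr_of_eventuallyEq ?_ (hzu j t h)
      filter_upwards [mem_nhdsWithin_of_mem_nhds (Iio_mem_nhds h)] with s hs using hzu j s hs
    · have h' : t0 < t := h0T.trans_le (not_lt.mp h)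
      have e : (fun i => z i t) = fun i => v i t := funext fun i => hzv i t h'
      rw [e]
      refine (((hvs j).2 t ⟨h', ht.2⟩).congr_of_eventuallyEq ?_).hasDerivWithinAt
      filter_upwards [Ioi_mem_nhds h'] with s hs using hzv j s hs
  · obtain ⟨C1, hC1⟩ := hu.dec w hw t0 h0T
    obtain ⟨C2, hC2⟩ := h3 w hw
    refine ⟨max C1 C2, fun j t ht => ?_⟩
    by_cases h : t ≤ t0
    · rw [hzu j t (h.trans_lt h0T)]
      exact le_max_of_le_left (hC1 j t ⟨ht.1, h⟩)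
    · rw [hzv j t (not_le.mp h)]
      exact le_max_of_le_right (hC2 j t ⟨(not_le.mp h).le, ht.2.trans hT'.le⟩)

/-- if solutions cannot live longer than `T0`, there is a maximal one and it is unbounded. -/
theorem exists_maximal {p : Par} (hp : p.OK) (u0 : ℕ → ℝ) (R : ℝ) (hR : 0 < R)
    (hu0 : ∀ j, |u0 j| ≤ R) (hdec : ∀ w : ℝ, 1 ≤ w → ∃ C, ∀ j, w ^ j * |u0 j| ≤ C)
    (T0 : ℝ) (hT0 : ∀ T u, Good p u0 u T → T ≤ T0) :
    ∃ T, 0 < T ∧ T ≤ T0 ∧ ∃ u, Good p u0 u T ∧ ∀ M, ¬ ∀ j, ∀ t ∈ Ico 0 T, |u j t| ≤ M := by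
  set A : Set ℝ := {T | ∃ u, Good p u0 u T} with hA
  have hAb : BddAbove A := ⟨T0, fun T ⟨u, hu⟩ => hT0 T u hu⟩
  have h1 : 1 / (32 * R) ∈ A := good_local hp u0 R hR hu0 hdec
  set T := sSup A with hT
  have hTpos : 0 < T := lt_of_lt_of_le (by positivity) (le_csSup hAb h1)
  have hex : ∀ t, t < T → ∃ S v, t < S ∧ Good p u0 v S := fun t ht => by
    obtain ⟨S, ⟨v, hv⟩, hS⟩ := exists_lt_of_lt_csSup ⟨_, h1⟩ ht
    exact ⟨S, v, hS, hv⟩
  choose! S v hS hv using hex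
  let u : ℕ → ℝ → ℝ := fun j t => v t j t
  have hu : ∀ t, t < T → ∀ s, 0 ≤ s → s < T → s < S t → ∀ j, u j s = v t j s :=
    fun t ht s h0 hs hs' j => (hv s hs).unique hp (hv t ht) h0 (hS s hs) hs' j
  have hgood : Good p u0 u T := by
    refine ⟨fun j => (hv 0 hTpos).init j, fun j t ht => ?_, fun w hw T' hT' => ?_⟩
    · have e : (fun i => u i t) = fun i => v t i t := rfl
      rw [e]
      refine ((hv t ht.2).der j t ⟨ht.1, hS t ht.2⟩).congr_of_eventuallyEq ?_ rfl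
      filter_upwards [mem_nhdsWithin_of_mem_nhds (Iio_mem_nhds ht.2),
        mem_nhdsWithin_of_mem_nhds (Iio_mem_nhds (hS t ht.2)), self_mem_nhdsWithin]
        with s h1 h2 h3 using hu t ht.2 s h3 h1 h2 j
    · obtain ⟨C, hC⟩ := (hv T' hT').dec w hw T' (hS T' hT')
      refine ⟨C, fun j t ht => ?_⟩
      rw [hu T' hT' t ht.1 (ht.2.trans_lt hT') (ht.2.trans_lt (hS T' hT')) j]
      exact hC j t ht
  refine ⟨T, hTpos, csSup_le ⟨_, h1⟩ (fun S ⟨v, hv⟩ => hT0 S v hv), u, hgood, fun M hM => ?_⟩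
  obtain ⟨T', hT', w, hw⟩ := hgood.extend hp hTpos (R := max M 1) (by positivity)
    (fun j t ht => le_max_of_le_left (hM j t ht))
  exact absurd (le_csSup hAb ⟨w, hw⟩) (not_le.mpr hT')

end Pool.Agent.Work.MP_6bf1e5_an.Mixed
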