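import Mathlib
import Pool.Agent.Work.MP_6bf1e5_an.Mixed.Cone
import Pool.Agent.Work.MP_6bf1e5_an.Mixed.Maximal

/-!
The bootstrap: a smooth solution cannot live long, and every level fires before the end.
-/

set_option autoImplicit false

namespace Pool.Agent.Work.MP_6bf1e5_an.Mixed

open Set Filter Topology

/-- numerical hypotheses of the bootstrap. -/
structure Hyp (p : Par) (M K J q γ : ℝ) : Prop where
  ok : p.OK
  hγ : ∀ j, p.g j ≤ γ
  M_pos : 0 < M
  q_ge : 4 ≤ q
  J_ge : 4 * q + 1 ≤ J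
  J_lt : J < K
  tiny : p.η * Real.exp (2 * J) ≤ 1
  drain : (p.β + γ * (3 * K)) * K ≤ 1 / 4
  fire : 3 * K + 1 < p.η * Real.exp ((K - J) / 2)
  diss : ∀ k, p.d (k + 1) ≤ M * q ^ k / 16
  diss0 : p.d 0 * (2 * K / M) ≤ 1 / 4

/-- the regime in which the bootstrap assumption holds. -/
structure Reg (p : Par) (u : ℕ → ℝ → ℝ) (T M K : ℝ) : Prop where
  T_nonneg : 0 ≤ T
  T_le : T ≤ 2 * K / M
  sol : Sol p u 0 T
  dec : Dec u 0 T
  init0 : u 0 0 = M
  init1 : ∀ k, u (k + 1) 0 = 0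
  bound : ∀ k, ∀ t ∈ Icc 0 T, I u k t ≤ K

variable {p : Par} {u : ℕ → ℝ → ℝ} {T M K J q γ : ℝ}

lemma exp_le_two {x : ℝ} (hx : x ≤ 1 / 2) : Real.exp x ≤ 2 := by
  have h1 : Real.exp x ≤ Real.exp (1 / 2) := Real.exp_le_exp.mpr hx
  have h2 : Real.exp (1 / 2) * Real.exp (1 / 2) = Real.exp 1 := by rw [← Real.exp_add]; norm_num
  have h3 := Real.exp_one_lt_d9
  have h4 := Real.exp_pos (1 / 2)
  nlinarith

lemma Hyp.K_pos (h : Hyp p M K J q γ) : 0 < K := by linarith [h.q_ge, h.J_ge, h.J_lt]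

lemma Hyp.γ_nonneg (h : Hyp p M K J q γ) : 0 ≤ γ := (h.ok.g_nonneg 0).trans (h.hγ 0)

lemma Hyp.c_nonneg (h : Hyp p M K J q γ) : 0 ≤ p.β + γ * (3 * K) := by
  have := h.K_pos
  have := h.γ_nonneg
  have := h.ok.β_nonneg
  positivity

lemma Reg.cone (r : Reg p u T M K) (h : Hyp p M K J q γ) :
    ∀ t ∈ Icc 0 T, ∀ k, 0 ≤ u k t ∧ u (k + 1) t ≤ cf p u k t * u k t :=
  cone2 h.ok r.T_nonneg r.sol r.dec r.bound h.hγ (by linarith [h.drain])
    (by rw [r.init0]; exact h.M_pos.le) r.init1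

lemma Reg.pos (r : Reg p u T M K) (h : Hyp p M K J q γ) (k : ℕ) {t : ℝ} (ht : t ∈ Icc 0 T) :
    0 ≤ u k t := (r.cone h t ht k).1

lemma Reg.ratio (r : Reg p u T M K) (h : Hyp p M K J q γ) (k : ℕ) {t : ℝ} (ht : t ∈ Icc 0 T) :
    u (k + 1) t ≤ 3 * K * u k t :=
  (r.cone h t ht k).2.trans
    (mul_le_mul_of_nonneg_right (cf_bounds h.ok r.sol r.bound k ht).2 (r.pos h k ht))

lemma Reg.I_der (r : Reg p u T M K) (h : Hyp p M K J q γ) (k : ℕ) {t : ℝ} (ht : t ∈ Ioo 0 T) :
    HasDerivAt (I u k) (u k t) t := by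
  have := Mixed.I_der r.sol k ht
  rwa [abs_of_nonneg (r.pos h k (Ioo_subset_Icc_self ht))] at this

lemma Reg.I_cont (r : Reg p u T M K) (k : ℕ) : ContinuousOn (I u k) (Icc 0 T) :=
  Mixed.I_cont r.sol r.T_nonneg k

lemma Reg.small (r : Reg p u T M K) (h : Hyp p M K J q γ) (k : ℕ) {t : ℝ} (ht : t ∈ Icc 0 T) :
    I u (k + 1) t ≤ p.η / 4 * Real.exp (2 * I u k t) := by
  have hs : Icc 0 t ⊆ Icc 0 T := Icc_subset_Icc le_rfl ht.2
  have c1 := (r.I_cont k).mono hs
  have c2 := (r.I_cont (k + 1)).mono hs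
  have key := mono_of_der (f := fun s => -((I u (k + 1) s + p.η / 4 * (2 * I u k s + 1)) *
      Real.exp (-2 * I u k s)))
    (f' := fun s => (cf p u k s * u k s - u (k + 1) s) * Real.exp (-2 * I u k s)) ht.1
    (by fun_prop) (fun s hs => by
      have hs' : s ∈ Ioo 0 T := ⟨hs.1, hs.2.trans_le ht.2⟩
      have d1 := r.I_der h k hs'
      have d2 := r.I_der h (k + 1) hs'
      refine (((d2.add (((d1.const_mul 2).add_const 1).const_mul (p.η / 4))).mul
        (d1.const_mul (-2)).exp).neg).congr_deriv ?_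
      simp only [cf, Pi.add_apply]
      ring)
    (fun s hs => mul_nonneg (sub_nonneg.mpr
      (r.cone h s ⟨hs.1.le, hs.2.le.trans ht.2⟩ k).2) (Real.exp_pos _).le)
  simp only [I_zero, mul_zero, Real.exp_zero, zero_add, mul_one] at key
  have h1 := I_nonneg r.sol k ht
  have h2 := h.ok.η_nonneg
  have h3 : Real.exp (-2 * I u k t) * Real.exp (2 * I u k t) = 1 := by
    rw [← Real.exp_add]; simp
  have h4 := Real.exp_pos (2 * I u k t)
  have h5 : (I u (k + 1) t + p.η / 4 * (2 * I u k t + 1)) * Real.exp (-2 * I u k t) *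
      Real.exp (2 * I u k t) ≤ p.η / 4 * Real.exp (2 * I u k t) := by
    gcongr; linarith
  rw [mul_assoc, h3, mul_one] at h5
  have h6 : 0 ≤ p.η / 4 * (2 * I u k t + 1) := by positivity
  linarith

lemma Reg.small' (r : Reg p u T M K) (h : Hyp p M K J q γ) (k : ℕ) {t : ℝ} (ht : t ∈ Icc 0 T)
    (hJ : I u k t ≤ J) : I u (k + 1) t ≤ 1 / 4 := by
  have h1 := r.small h k ht
  have h2 : Real.exp (2 * I u k t) ≤ Real.exp (2 * J) := Real.exp_le_exp.mpr (by linarith)
  have h3 := h.tiny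
  have h4 := h.ok.η_nonneg
  nlinarith

lemma F_zero (p : Par) (v : ℕ → ℝ) :
    F p v 0 = -p.d 0 * v 0 - p.β * v 1 * v 0 - p.g 0 * v 1 ^ 2 := by
  simp only [F, N, pr]; ring

lemma Reg.base (r : Reg p u T M K) (h : Hyp p M K J q γ) {t : ℝ} (ht : t ∈ Icc 0 T) :
    M / 2 ≤ u 0 t := by
  have hs : Icc 0 t ⊆ Icc 0 T := Icc_subset_Icc le_rfl ht.2
  have c1 := (r.sol 0).1.mono hs
  have c2 := (r.I_cont 1).mono hs
  set c := p.β + γ * (3 * K) with hc
  have key := mono_of_der (f := fun s => u 0 s * Real.exp (p.d 0 * s + c * I u 1 s))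
    (f' := fun s => (γ * (3 * K) * u 0 s * u 1 s - p.g 0 * u 1 s ^ 2) *
      Real.exp (p.d 0 * s + c * I u 1 s)) ht.1
    (by fun_prop) (fun s hs => by
      have hs' : s ∈ Ioo 0 T := ⟨hs.1, hs.2.trans_le ht.2⟩
      have d1 := (r.sol 0).2 s hs'
      have d2 := r.I_der h 1 hs'
      refine (d1.mul (((hasDerivAt_id s).const_mul (p.d 0)).add (d2.const_mul c)).exp).congr_deriv ?_
      simp only [F_zero, hc, id, Pi.add_apply]
      ring)
    (fun s hs => by
      have hs' : s ∈ Icc 0 T := ⟨hs.1.le, hs.2.le.trans ht.2⟩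
      refine mul_nonneg ?_ (Real.exp_pos _).le
      have a1 := r.ratio h 0 hs'
      have a2 := r.pos h 1 hs'
      have a3 := h.hγ 0
      have a4 := h.γ_nonneg
      have a5 : p.g 0 * u 1 s ^ 2 ≤ γ * u 1 s ^ 2 := by gcongr
      have a6 : γ * (u 1 s * u 1 s) ≤ γ * (3 * K * u 0 s * u 1 s) := by
        gcongr
      nlinarith)
  simp only [I_zero, mul_zero, Real.exp_zero, add_zero, mul_one, r.init0] at key
  have h1 : p.d 0 * t ≤ 1 / 4 :=
    le_trans (mul_le_mul_of_nonneg_left (ht.2.trans r.T_le) (h.ok.d_nonneg 0)) h.diss0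
  have h2 : c * I u 1 t ≤ 1 / 4 :=
    le_trans (mul_le_mul_of_nonneg_left (r.bound 1 t ht) h.c_nonneg) h.drain
  have h3 := exp_le_two (x := p.d 0 * t + c * I u 1 t) (by linarith)
  have h4 := r.pos h 0 ht
  nlinarith

lemma Reg.base_le (r : Reg p u T M K) (h : Hyp p M K J q γ) {t : ℝ} (ht : t ∈ Icc 0 T) :
    u 0 t ≤ M := by
  have hs : Icc 0 t ⊆ Icc 0 T := Icc_subset_Icc le_rfl ht.2
  have c1 := (r.sol 0).1.mono hs
  have key := mono_of_der (f := fun s => -u 0 s) (f' := fun s => -F p (fun i => u i s) 0) ht.1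
    (by fun_prop) (fun s hs => ((r.sol 0).2 s ⟨hs.1, hs.2.trans_le ht.2⟩).neg)
    (fun s hs => by
      have hs' : s ∈ Icc 0 T := ⟨hs.1.le, hs.2.le.trans ht.2⟩
      have a1 := r.pos h 0 hs'
      have a2 := r.pos h 1 hs'
      have a3 := h.ok.d_nonneg 0
      have a4 := h.ok.β_nonneg
      have a5 := h.ok.g_nonneg 0
      rw [F_zero]
      have : 0 ≤ p.d 0 * u 0 s + p.β * u 1 s * u 0 s + p.g 0 * u 1 s ^ 2 := by positivity
      linarith)
  simp only [r.init0] at key
  linarith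

lemma ratio_ineq {η β g g' γ R d d' y z w v : ℝ} (_hη0 : 0 ≤ η) (hη : η ≤ 1) (hβ0 : 0 ≤ β)
    (hg0 : 0 ≤ g) (hg' : g' ≤ γ) (hγ : 0 ≤ γ) (hd : 0 ≤ d) (hz : 0 < z) (hw : 0 ≤ w) (hv : 0 ≤ v)
    (hy0 : 0 ≤ y) (hy : 4 * y ≤ z) (hd' : d' ≤ z / 8) (hvw : v ≤ R * w) :
    w / 2 + η * z ≤ ((-d' * w + ((z - β * v) * w + η * z ^ 2 - g' * v ^ 2)) * z
      - w * (-d * z + ((y - β * w) * z + η * y ^ 2 - g * w ^ 2))) / z ^ 2
      + w / z * ((β + γ * R) * v) := by
  have e1 : w / z * ((β + γ * R) * v) = w * z * ((β + γ * R) * v) / z ^ 2 := by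
    field_simp
  rw [e1, ← add_div, le_div_iff₀ (by positivity)]
  have hwz : 0 ≤ w * z := by positivity
  have a1 : d' * (w * z) ≤ z / 8 * (w * z) := by gcongr
  have a2 : y * (w * z) ≤ z / 4 * (w * z) := by gcongr; linarith
  have a3 : η * (y ^ 2 * w) ≤ z ^ 2 / 16 * w := by
    have b1 : y ^ 2 ≤ z ^ 2 / 16 := by nlinarith
    have b2 : y ^ 2 * w ≤ z ^ 2 / 16 * w := by gcongr
    have b3 : 0 ≤ y ^ 2 * w := by positivity
    nlinarith
  have a4 : g' * (v ^ 2 * z) ≤ γ * (R * w * v * z) := by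
    have b1 : v ^ 2 * z ≤ R * w * v * z := by rw [sq]; gcongr
    calc g' * (v ^ 2 * z) ≤ γ * (v ^ 2 * z) := by gcongr
      _ ≤ _ := by gcongr
  have a5 : 0 ≤ d * (w * z) := by positivity
  have a6 : 0 ≤ β * (w * w * z) := by positivity
  have a7 : 0 ≤ g * w ^ 3 := by positivity
  have a8 : 0 ≤ w * z * z := by positivity
  nlinarith

/-- level `k` is high once it has fired. -/
def Lev (u : ℕ → ℝ → ℝ) (T M J q : ℝ) (k : ℕ) : Prop :=
  ∀ t ∈ Icc 0 T, J ≤ I u k t → q * pr (fun i => u i t) k ≤ u k t ∧ M / 2 * q ^ k ≤ u k t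

lemma Reg.step (r : Reg p u T M K) (h : Hyp p M K J q γ) (k : ℕ) (hk : Lev u T M J q k) {t : ℝ}
    (ht : t ∈ Icc 0 T) (hJ : J ≤ I u k t) :
    (I u (k + 1) t - 1 / 4) / 4 * u k t ≤ u (k + 1) t ∧ I u k t < K := by
  have hJ0 : 0 ≤ J := by linarith [h.q_ge, h.J_ge]
  have hq : 0 < q := by linarith [h.q_ge]
  have hM := h.M_pos
  have hη0 := h.ok.η_nonneg
  obtain ⟨t1, ht1, hI1⟩ : ∃ t1 ∈ Icc 0 t, I u k t1 = J :=
    intermediate_value_Icc ht.1 ((r.I_cont k).mono (Icc_subset_Icc le_rfl ht.2))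
      ⟨by rw [I_zero]; exact hJ0, hJ⟩
  have hs : Icc t1 t ⊆ Icc 0 T := Icc_subset_Icc ht1.1 ht.2
  have hlev : ∀ s ∈ Icc t1 t, q * pr (fun i => u i s) k ≤ u k s ∧ M / 2 * q ^ k ≤ u k s :=
    fun s hs' => hk s (hs hs') (hI1 ▸ I_mono r.sol k ht1.1 hs'.1 (hs hs').2)
  have hz : ∀ s ∈ Icc t1 t, 0 < u k s := fun s hs' =>
    lt_of_lt_of_le (by positivity) (hlev s hs').2
  set c := p.β + γ * (3 * K) with hc
  set m : ℝ → ℝ := fun s => u (k + 1) s / u k s * Real.exp (c * I u (k + 1 + 1) s) with hm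
  have c0 := (r.I_cont k).mono hs
  have c1 := (r.I_cont (k + 1)).mono hs
  have cm : ContinuousOn m (Icc t1 t) := by
    have c2 := (r.I_cont (k + 1 + 1)).mono hs
    have c3 := (((r.sol (k + 1)).1.mono hs).div ((r.sol k).1.mono hs) (fun s hs' => (hz s hs').ne'))
    exact c3.mul (by fun_prop)
  have hE : ∀ s ∈ Icc t1 t, 1 ≤ Real.exp (c * I u (k + 1 + 1) s) := fun s hs' =>
    Real.one_le_exp (mul_nonneg h.c_nonneg (I_nonneg r.sol _ (hs hs')))
  have dm : ∀ s ∈ Ioo t1 t, ∃ X, u (k + 1) s / 2 + p.η * u k s ≤ X ∧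
      HasDerivAt m (X * Real.exp (c * I u (k + 1 + 1) s)) s := by
    intro s hs'
    have hs1 : s ∈ Icc t1 t := Ioo_subset_Icc_self hs'
    have hs2 : s ∈ Ioo 0 T := ⟨ht1.1.trans_lt hs'.1, hs'.2.trans_le ht.2⟩
    have hs3 := hs hs1
    have hy0 : 0 ≤ pr (fun i => u i s) k := by
      cases k with
      | zero => simp [pr]
      | succ k => exact r.pos h k hs3
    have hl := hlev s hs1
    refine ⟨_, ratio_ineq (β := p.β) (g := p.g k) (g' := p.g (k + 1)) (γ := γ) (R := 3 * K)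
      (d := p.d k) (d' := p.d (k + 1)) (y := pr (fun i => u i s) k) (v := u (k + 1 + 1) s) hη0
      (h.ok.η_le.trans (by norm_num)) h.ok.β_nonneg (h.ok.g_nonneg k) (h.hγ _) h.γ_nonneg
      (h.ok.d_nonneg k) (hz s hs1) (r.pos h _ hs3) (r.pos h _ hs3) hy0
      (by nlinarith [hl.1, h.q_ge]) (by linarith [h.diss k, hl.2]) (r.ratio h _ hs3), ?_⟩
    refine (((((r.sol (k + 1)).2 s hs2).div ((r.sol k).2 s hs2) (hz s hs1).ne')).mul
      ((r.I_der h (k + 1 + 1) hs2).const_mul c).exp).congr_deriv ?_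
    have e1 : F p (fun i => u i s) (k + 1) = -p.d (k + 1) * u (k + 1) s +
        ((u k s - p.β * u (k + 1 + 1) s) * u (k + 1) s + p.η * u k s ^ 2
          - p.g (k + 1) * u (k + 1 + 1) s ^ 2) := rfl
    have e2 : F p (fun i => u i s) k = -p.d k * u k s +
        ((pr (fun i => u i s) k - p.β * u (k + 1) s) * u k s + p.η * pr (fun i => u i s) k ^ 2
          - p.g k * u (k + 1) s ^ 2) := rfl
    rw [e1, e2]
    simp only [Pi.div_apply]
    ring
  choose! X hX dX using dm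
  have hm1 : 0 ≤ m t1 :=
    mul_nonneg (div_nonneg (r.pos h _ (hs (left_mem_Icc.mpr ht1.2)))
      (hz t1 (left_mem_Icc.mpr ht1.2)).le) (Real.exp_pos _).le
  have hzt := hz t (right_mem_Icc.mpr ht1.2)
  have hwt := r.pos h (k + 1) ht
  have hE2 : Real.exp (c * I u (k + 1 + 1) t) ≤ 2 := exp_le_two (by
    have := le_trans (mul_le_mul_of_nonneg_left (r.bound (k + 1 + 1) t ht) h.c_nonneg) h.drain
    linarith)
  have hmt : m t ≤ 2 * (u (k + 1) t / u k t) := by
    have : 0 ≤ u (k + 1) t / u k t := by positivity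
    simp only [hm]; nlinarith
  constructor
  · have key := mono_of_der (f := fun s => m s - I u (k + 1) s / 2)
      (f' := fun s => X s * Real.exp (c * I u (k + 1 + 1) s) - u (k + 1) s / 2) ht1.2
      (by fun_prop) (fun s hs' => (dX s hs').sub ((r.I_der h (k + 1)
        ⟨ht1.1.trans_lt hs'.1, hs'.2.trans_le ht.2⟩).div_const 2))
      (fun s hs' => by
        have hs1 : s ∈ Icc t1 t := Ioo_subset_Icc_self hs'
        have a1 := hX s hs'
        have a2 := hE s hs1
        have a3 := r.pos h (k + 1) (hs hs1)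
        have a4 : 0 ≤ p.η * u k s := mul_nonneg hη0 (hz s hs1).le
        nlinarith)
    have a1 := r.small' h k (hs (left_mem_Icc.mpr ht1.2)) hI1.le
    rw [← le_div_iff₀ hzt]
    linarith
  · have key := mono_of_der (f := fun s => (m s + 2 * p.η) * Real.exp (-(1 / 2) * I u k s))
      (f' := fun s => (X s * Real.exp (c * I u (k + 1 + 1) s) - (m s + 2 * p.η) * u k s / 2) *
        Real.exp (-(1 / 2) * I u k s)) ht1.2
      (by fun_prop) (fun s hs' => by
        refine (((dX s hs').add_const (2 * p.η)).mul ((r.I_der h k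
          ⟨ht1.1.trans_lt hs'.1, hs'.2.trans_le ht.2⟩).const_mul (-(1 / 2))).exp).congr_deriv ?_
        ring)
      (fun s hs' => by
        have hs1 : s ∈ Icc t1 t := Ioo_subset_Icc_self hs'
        refine mul_nonneg ?_ (Real.exp_pos _).le
        have a1 := hX s hs'
        have a2 := hE s hs1
        have a3 := hz s hs1
        have a4 : 0 ≤ p.η * u k s := mul_nonneg hη0 a3.le
        have a5 : m s * u k s = u (k + 1) s * Real.exp (c * I u (k + 1 + 1) s) := by
          simp only [hm]; field_simp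
        nlinarith)
    simp only [hI1] at key
    by_contra hcon
    push Not at hcon
    have a1 : u (k + 1) t / u k t ≤ 3 * K := by
      rw [div_le_iff₀ hzt]; exact r.ratio h k ht
    have a2 : Real.exp (-(1 / 2) * I u k t) ≤ Real.exp (-(1 / 2) * K) :=
      Real.exp_le_exp.mpr (by linarith)
    have a3 : Real.exp (-(1 / 2) * J) = Real.exp ((K - J) / 2) * Real.exp (-(1 / 2) * K) := by
      rw [← Real.exp_add]; congr 1; ring
    have a4 := Real.exp_pos (-(1 / 2) * K)
    have a5 := Real.exp_pos (-(1 / 2) * I u k t)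
    have a6 := Real.exp_pos (-(1 / 2) * J)
    have hK := h.K_pos
    have a7 : (m t + 2 * p.η) * Real.exp (-(1 / 2) * I u k t) ≤
        (6 * K + 1) * Real.exp (-(1 / 2) * K) :=
      mul_le_mul (by linarith [h.ok.η_le]) a2 a5.le (by positivity)
    have a8 : 2 * p.η * Real.exp (-(1 / 2) * J) ≤ (m t1 + 2 * p.η) * Real.exp (-(1 / 2) * J) := by
      gcongr; linarith
    have a9 := h.fire
    rw [a3] at a8 key
    nlinarith

lemma Reg.lev (r : Reg p u T M K) (h : Hyp p M K J q γ) (k : ℕ) : Lev u T M J q k := by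
  induction k with
  | zero =>
    intro t ht _
    have := r.base h ht
    have := h.M_pos
    simp only [pr, mul_zero, pow_zero, mul_one]
    constructor <;> linarith
  | succ k ih =>
    intro t ht hJ
    have hq := h.q_ge
    have hJ' : J ≤ I u k t := by
      by_contra hcon
      push Not at hcon
      have := r.small' h k ht hcon.le
      linarith [h.J_ge]
    have h1 := (r.step h k ih ht hJ').1
    have h2 := (ih t ht hJ').2
    have h3 := r.pos h k ht
    have h4 : q * u k t ≤ u (k + 1) t := by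
      refine le_trans ?_ h1
      gcongr; linarith [h.J_ge]
    refine ⟨h4, le_trans ?_ h4⟩
    rw [pow_succ]
    nlinarith

lemma Reg.improve (r : Reg p u T M K) (h : Hyp p M K J q γ) (k : ℕ) {t : ℝ} (ht : t ∈ Icc 0 T) :
    I u k t < K := by
  rcases le_or_gt J (I u k t) with hJ | hJ
  · exact (r.step h k (r.lev h k) ht hJ).2
  · exact hJ.trans h.J_lt

lemma boot (h : Hyp p M K J q γ) (hT : 0 ≤ T) (hT' : T ≤ 2 * K / M) (hu : Sol p u 0 T)
    (du : Dec u 0 T) (h0 : u 0 0 = M) (h1 : ∀ k, u (k + 1) 0 = 0) : Reg p u T M K := by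
  refine ⟨hT, hT', hu, du, h0, h1, ?_⟩
  have hK := h.K_pos
  obtain ⟨n, hn⟩ := du.small (δ := K / (T + 1)) (by positivity)
  have key := barrier (fun (k : ℕ) t => K - I u k t) 0 T (Iio n) (finite_Iio _) ?_ ?_ ?_ ?_
  · intro k t ht
    have := key t ht k
    linarith
  · intro k
    have := I_cont hu hT k
    fun_prop
  · intro k hk t ht
    have hk' : n ≤ k := by simpa using hk
    have c1 := (I_cont hu hT k).mono (Icc_subset_Icc le_rfl ht.2)
    have := mono_of_der (f := fun s => K / (T + 1) * s - I u k s)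
      (f' := fun s => K / (T + 1) * 1 - |u k s|) ht.1 (by fun_prop)
      (fun s hs => ((hasDerivAt_id s).const_mul _).sub (I_der hu k ⟨hs.1, hs.2.trans_le ht.2⟩))
      (fun s hs => by linarith [hn k hk' s ⟨hs.1.le, hs.2.le.trans ht.2⟩])
    simp only [I_zero, mul_zero, sub_zero] at this
    have h2 : K / (T + 1) * t < K := by
      rw [div_mul_eq_mul_div, div_lt_iff₀ (by positivity)]
      nlinarith [ht.2]
    linarith
  · intro k
    simp only [I_zero, sub_zero]; exact hK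
  · intro t ht hall k hz
    exfalso
    have r : Reg p u t M K := ⟨ht.1.le, ht.2.le.trans hT', hu.mono le_rfl ht.2.le,
      du.mono le_rfl ht.2.le, h0, h1, fun i s hs => by
        have := I_mono hu i hs.1 hs.2 ht.2.le
        have := hall i
        linarith⟩
    have := r.improve h k (right_mem_Icc.mpr ht.1.le)
    linarith

/-- single mode data. -/
def dat (M : ℝ) (j : ℕ) : ℝ := if j = 0 then M else 0

lemma Good.reg (h : Hyp p M K J q γ) {S : ℝ} (hu : Good p (dat M) u S) (hT : 0 ≤ T) (hS : T < S)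
    (hT' : T ≤ 2 * K / M) : Reg p u T M K :=
  boot h hT hT' (hu.sol hS) (hu.dec2 hS) (by rw [hu.init]; simp [dat])
    (fun k => by rw [hu.init]; simp [dat])

lemma life (h : Hyp p M K J q γ) {S : ℝ} (hu : Good p (dat M) u S) : S ≤ 2 * K / M := by
  by_contra hcon
  push Not at hcon
  have hK := h.K_pos
  have hM := h.M_pos
  have h0 : 0 ≤ 2 * K / M := by positivity
  have r := hu.reg h h0 hcon le_rfl
  have h1 := r.improve h 0 (right_mem_Icc.mpr h0)
  have c1 := r.I_cont 0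
  have := mono_of_der (f := fun s => I u 0 s - M / 2 * s) (f' := fun s => u 0 s - M / 2 * 1) h0
    (by fun_prop) (fun s hs => (r.I_der h 0 hs).sub ((hasDerivAt_id s).const_mul _))
    (fun s hs => by linarith [r.base h (Ioo_subset_Icc_self hs)])
  simp only [I_zero, mul_zero, sub_zero] at this
  have e : M / 2 * (2 * K / M) = K := by field_simp
  linarith

theorem blowup (h : Hyp p M K J q γ) :
    ∃ T, 0 < T ∧ T ≤ 2 * K / M ∧ ∃ u, Good p (dat M) u T ∧
      ∀ k, ∃ t ∈ Ico 0 T, M / 2 * q ^ k ≤ u k t := by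
  have hM := h.M_pos
  have hK := h.K_pos
  obtain ⟨T, hT, hT', u, hu, hunb⟩ := exists_maximal h.ok (dat M) M hM
    (fun j => by unfold dat; split_ifs <;> simp [abs_of_pos hM, hM.le])
    (fun w hw => ⟨M, fun j => by
      unfold dat; split_ifs with hj
      · simp [hj, abs_of_pos hM]
      · simp [hM.le]⟩) (2 * K / M) (fun T u hu => life h hu)
  refine ⟨T, hT, hT', u, hu, fun k => ?_⟩
  by_contra hcon
  push Not at hcon
  have hK1 : 1 ≤ 3 * K := by linarith [h.q_ge, h.J_ge, h.J_lt]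
  refine hunb (M * (3 * K) ^ (k + 1)) (fun j t ht => ?_)
  have r := hu.reg h ht.1 ht.2 (ht.2.le.trans hT')
  have htI : t ∈ Icc 0 t := right_mem_Icc.mpr ht.1
  have hJ : I u k t ≤ J := by
    by_contra h1
    push Not at h1
    exact absurd (r.lev h k t htI h1.le).2 (not_le.mpr (hcon t ht))
  have h1 : ∀ i, I u (k + 1 + i) t ≤ 1 / 4 := by
    intro i
    induction i with
    | zero => exact r.small' h k htI hJ
    | succ i ih => exact r.small' h (k + 1 + i) htI (by linarith [h.q_ge, h.J_ge])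
  have h2 : ∀ i, u i t ≤ M * (3 * K) ^ i := by
    intro i
    induction i with
    | zero => simpa using r.base_le h htI
    | succ i ih =>
      refine (r.ratio h i htI).trans ?_
      rw [pow_succ]
      nlinarith
  have h3 : ∀ i, u (k + 1 + i) t ≤ M * (3 * K) ^ (k + 1) := by
    intro i
    induction i with
    | zero => exact h2 _
    | succ i ih =>
      have a1 := (r.cone h t htI (k + 1 + i)).2
      have a2 := r.pos h (k + 1 + i) htI
      have a3 : cf p u (k + 1 + i) t ≤ 1 := by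
        have b1 := h1 i
        have b2 := h1 (i + 1)
        have b3 := h.ok.η_le
        have b4 := I_nonneg r.sol (k + 1 + i) htI
        unfold cf
        rw [← add_assoc] at b2
        nlinarith
      rw [← add_assoc]
      nlinarith
  rw [abs_of_nonneg (r.pos h j htI)]
  rcases le_or_gt (k + 1) j with hj | hj
  · obtain ⟨i, rfl⟩ := Nat.exists_eq_add_of_le hj
    exact h3 i
  · refine (h2 j).trans ?_
    gcongr

end Pool.Agent.Work.MP_6bf1e5_an.Mixed
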