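import Mathlib

/-!
The scalar nearest neighbour shell model with both admissible quadratic interactions.
-/

set_option autoImplicit false

namespace Pool.Agent.Work.MP_6bf1e5_an.Mixed

open Set

/-- Right hand side of the `k`-th equation of the viscous shell model
`X_k' = -ν l^(2k) X_k + l^(α(k-1)) (ε X_(k-1)^2 + X_(k-1) X_k) - l^(αk) (ε X_k X_(k+1) + X_(k+1)^2)`,
the middle term being absent for `k = 0`. -/
noncomputable def shell (ν l α ε : ℝ) (X : ℕ → ℝ) (k : ℕ) : ℝ :=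
  -ν * l ^ (2 * k) * X k
    + (if k = 0 then 0 else (l ^ α) ^ (k - 1) * (ε * X (k - 1) ^ 2 + X (k - 1) * X k))
    - (l ^ α) ^ k * (ε * X k * X (k + 1) + X (k + 1) ^ 2)

/-- `X` is a smooth solution on the time set `S` (either `[0, T)` or `[0, ∞)`) with data
`(M, 0, 0, …)`: the equations hold classically and all Sobolev norms are locally bounded. -/
def SmoothSol (ν l α ε M : ℝ) (X : ℕ → ℝ → ℝ) (S : Set ℝ) : Prop :=
  X 0 0 = M ∧ (∀ k, X (k + 1) 0 = 0) ∧
  (∀ k, ∀ t ∈ S, HasDerivWithinAt (X k) (shell ν l α ε (fun j => X j t) k) (Ici 0) t) ∧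
  ∀ m : ℕ, ∀ t ∈ S, ∃ C, ∀ k, ∀ τ ∈ Icc 0 t, l ^ (m * k) * |X k τ| ≤ C

end Pool.Agent.Work.MP_6bf1e5_an.Mixed
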