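import Mathlib
import Pool.Agent.Work.MP_6bf1e5_an.Mixed.Defs
import Pool.Agent.Work.MP_6bf1e5_an.Mixed.Boot

/-!
Translation between the shell model and the rate variables, choice of the constants.
-/

set_option autoImplicit false

namespace Pool.Agent.Work.MP_6bf1e5_an.Mixed

open Set Filter Topology

/-- parameters in rate variables. -/
noncomputable def par (ν l Λ ε : ℝ) : Par :=
  ⟨fun j => ν * l ^ (2 * j), fun _ => 1 / Λ ^ 2, ε * Λ, ε / Λ⟩

lemma F_par (ν l α ε : ℝ) (hl : 0 < l) (X : ℕ → ℝ) (k : ℕ) :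
    F (par ν l (l ^ α) ε) (fun j => (l ^ α) ^ j * X j) k = (l ^ α) ^ k * shell ν l α ε X k := by
  have hΛ : 0 < l ^ α := Real.rpow_pos_of_pos hl α
  cases k with
  | zero =>
    simp only [F, N, pr, par, shell, if_true]
    field_simp
    ring
  | succ k =>
    simp only [F, N, pr, par, shell, Nat.succ_ne_zero, if_false, Nat.add_sub_cancel]
    field_simp
    ring

lemma good_of_smooth {ν l α ε M T : ℝ} (hl : 1 < l) {X : ℕ → ℝ → ℝ} {S : Set ℝ}
    (hS : Ico 0 T ⊆ S) (h : SmoothSol ν l α ε M X S) :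
    Good (par ν l (l ^ α) ε) (dat M) (fun j t => (l ^ α) ^ j * X j t) T := by
  obtain ⟨h0, h1, h2, h3⟩ := h
  have hΛ : 0 < l ^ α := Real.rpow_pos_of_pos (by linarith) α
  refine ⟨fun j => ?_, fun j t ht => ?_, fun w hw T' hT' => ?_⟩
  · cases j with
    | zero => simp [dat, h0]
    | succ j => simp [dat, h1]
  · rw [F_par ν l α ε (by linarith) (fun j => X j t) j]
    exact (h2 j t (hS ht)).const_mul _
  · rcases lt_or_ge T' 0 with hneg | hpos
    · exact ⟨0, fun j t ht => absurd (ht.1.trans ht.2) (not_le.mpr hneg)⟩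
    obtain ⟨m, hm⟩ := pow_unbounded_of_one_lt (w * l ^ α) hl
    obtain ⟨C, hC⟩ := h3 m T' (hS ⟨hpos, hT'⟩)
    refine ⟨C, fun j t ht => le_trans ?_ (hC j t ht)⟩
    rw [abs_mul, abs_of_pos (pow_pos hΛ j), ← mul_assoc, ← mul_pow, pow_mul]
    gcongr

lemma smooth_of_good {ν l α ε M T : ℝ} (hl : 1 < l) (hα : 0 ≤ α) {u : ℕ → ℝ → ℝ}
    (h : Good (par ν l (l ^ α) ε) (dat M) u T) :
    SmoothSol ν l α ε M (fun j t => u j t / (l ^ α) ^ j) (Ico 0 T) := by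
  have hΛ1 : 1 ≤ l ^ α := Real.one_le_rpow hl.le hα
  have hΛ : 0 < l ^ α := by linarith
  refine ⟨by simp [h.init, dat], fun k => by simp [h.init, dat], fun k t ht => ?_,
    fun m t ht => ?_⟩
  · have e := F_par ν l α ε (by linarith) (fun j => u j t / (l ^ α) ^ j) k
    have e2 : (fun j => (l ^ α) ^ j * (u j t / (l ^ α) ^ j)) = fun j => u j t := by
      funext j; field_simp
    rw [e2] at e
    refine ((h.der k t ht).div_const _).congr_deriv ?_
    rw [e]; field_simp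
  · obtain ⟨C, hC⟩ := h.dec (l ^ m) (one_le_pow₀ hl.le) t ht.2
    refine ⟨C, fun k τ hτ => le_trans ?_ (hC k τ hτ)⟩
    rw [abs_div, abs_of_pos (pow_pos hΛ k), pow_mul]
    gcongr
    exact div_le_self (abs_nonneg _) (one_le_pow₀ hΛ1)

lemma hyp_par {ν l Λ ε q M : ℝ} (hν : 0 ≤ ν) (hl : 2 ≤ l) (hq : 2 * l ^ 2 ≤ q) (hΛ : 104 * q ≤ Λ)
    (h1 : Real.exp (-(8 * q + 3)) / Λ ≤ ε) (h2 : ε ≤ Real.exp (-(8 * q + 2)) / Λ)
    (hM : 16 * ν * l ^ 2 + 8 * ν * (24 * q + 9) + 1 ≤ M) :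
    Hyp (par ν l Λ ε) M (24 * q + 9) (4 * q + 1) q (1 / Λ ^ 2) := by
  have hq8 : 8 ≤ q := by nlinarith
  have hΛ1 : 1 ≤ Λ := by linarith
  have hΛ0 : 0 < Λ := by linarith
  have hε : 0 < ε := lt_of_lt_of_le (by positivity) h1
  rw [div_le_iff₀ hΛ0] at h1
  rw [le_div_iff₀ hΛ0] at h2
  have hE : Real.exp (-(8 * q + 2)) * Real.exp (8 * q + 2) = 1 := by rw [← Real.exp_add]; simp
  have hE1 : 8 * q + 2 + 1 ≤ Real.exp (8 * q + 2) := Real.add_one_le_exp _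
  have hE2 := Real.exp_pos (-(8 * q + 2))
  have hη : ε * Λ ≤ 1 / 2 := by nlinarith
  have a1 : 0 ≤ ν * l ^ 2 := by positivity
  have a2 : 0 ≤ ν * (24 * q + 9) := by positivity
  have hM0 : 0 < M := by nlinarith
  have hβ : ε / Λ ≤ 1 / Λ ^ 2 := by
    rw [div_le_div_iff₀ hΛ0 (by positivity)]; nlinarith
  have hγ : 1 / Λ ^ 2 ≤ 1 := by
    rw [div_le_one (by positivity)]; nlinarith
  refine ⟨⟨fun j => ?_, fun i j hij => ?_, fun j => ?_, fun j => hγ, ?_, hη, ?_, hβ.trans hγ⟩,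
    fun j => le_rfl, hM0, by linarith, le_rfl, by linarith, ?_, ?_, ?_, fun k => ?_, ?_⟩
  · simp only [par]; positivity
  · simp only [par]; gcongr; linarith
  · simp only [par]; positivity
  · simp only [par]; positivity
  · simp only [par]; positivity
  · simp only [par]
    rw [show 2 * (4 * q + 1) = 8 * q + 2 by ring, ← hE]
    gcongr
  · simp only [par]
    have b1 : (ε / Λ + 1 / Λ ^ 2 * (3 * (24 * q + 9))) * (24 * q + 9) ≤
        (1 + 3 * (24 * q + 9)) * (24 * q + 9) / Λ ^ 2 := by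
      rw [show (1 + 3 * (24 * q + 9)) * (24 * q + 9) / Λ ^ 2 =
        (1 / Λ ^ 2 + 1 / Λ ^ 2 * (3 * (24 * q + 9))) * (24 * q + 9) by ring]
      gcongr
    refine b1.trans ?_
    rw [div_le_iff₀ (by positivity)]
    nlinarith
  · simp only [par]
    have b1 : Real.exp (-(8 * q + 3)) * Real.exp ((24 * q + 9 - (4 * q + 1)) / 2) =
        Real.exp (2 * q + 1) := by rw [← Real.exp_add]; congr 1; ring
    have b2 := Real.pow_div_factorial_le_exp (2 * q + 1) (by linarith) 3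
    have b3 := Real.exp_pos ((24 * q + 9 - (4 * q + 1)) / 2)
    have b4 : Real.exp (2 * q + 1) ≤ ε * Λ * Real.exp ((24 * q + 9 - (4 * q + 1)) / 2) := by
      rw [← b1]; gcongr
    refine lt_of_lt_of_le ?_ (b2.trans b4)
    norm_num [Nat.factorial]
    rw [lt_div_iff₀ (by norm_num)]
    nlinarith [mul_nonneg (by linarith : 0 ≤ q - 8) (by nlinarith : 0 ≤ q * q)]
  · simp only [par]
    have b1 : (l ^ 2) ^ k ≤ q ^ k := by gcongr; nlinarith
    rw [show ν * l ^ (2 * (k + 1)) = ν * l ^ 2 * (l ^ 2) ^ k by ring, le_div_iff₀ (by norm_num)]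
    have b2 : 0 ≤ (l ^ 2) ^ k := by positivity
    calc ν * l ^ 2 * (l ^ 2) ^ k * 16 = 16 * ν * l ^ 2 * (l ^ 2) ^ k := by ring
      _ ≤ M * q ^ k := mul_le_mul (by nlinarith) b1 b2 hM0.le
  · simp only [par, mul_zero, pow_zero, mul_one]
    rw [← mul_div_assoc, div_le_iff₀ hM0]
    nlinarith

theorem final (α : ℝ) (hα : 2 < α) (s : ℝ) (hs : 0 < s) :
    ∃ l₀ : ℝ, ∀ l ≥ l₀, ∃ ε₁ ε₂ : ℝ, 0 < ε₁ ∧ ε₁ < ε₂ ∧ ∀ ε ∈ Icc ε₁ ε₂, ∀ ν ≥ (0 : ℝ),
      ∃ M₀ : ℝ, ∀ M ≥ M₀,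
        (∃ T > (0 : ℝ), ∃ X, SmoothSol ν l α ε M X (Ico 0 T) ∧
          ∀ k : ℕ, ∃ t ∈ Ico 0 T, 2 ^ k ≤ (l ^ s) ^ k * X k t) ∧
        ¬ ∃ X, SmoothSol ν l α ε M X (Ici 0) := by
  set σ := min s (α - 2) with hσ
  have hσ0 : 0 < σ := lt_min hs (by linarith)
  refine ⟨max 2 (208 ^ (1 / σ)), fun l hl => ?_⟩
  have hl2 : 2 ≤ l := le_of_max_le_left hl
  have hl0 : 0 < l := by linarith
  have hlσ : 208 ≤ l ^ σ := by
    have h1 : (208 : ℝ) ^ (1 / σ) ≤ l := le_of_max_le_right hl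
    have h2 := Real.rpow_le_rpow (by positivity) h1 hσ0.le
    rwa [← Real.rpow_mul (by norm_num), one_div_mul_cancel hσ0.ne', Real.rpow_one] at h2
  set q := 2 * l ^ (α - σ) with hq
  have hΛ : l ^ α = l ^ (α - σ) * l ^ σ := by rw [← Real.rpow_add hl0]; congr 1; ring
  have hp : 0 < l ^ (α - σ) := Real.rpow_pos_of_pos hl0 _
  have hΛ0 : 0 < l ^ α := Real.rpow_pos_of_pos hl0 _
  have hq1 : 2 * l ^ 2 ≤ q := by
    have : l ^ (2 : ℝ) ≤ l ^ (α - σ) :=
      Real.rpow_le_rpow_of_exponent_le (by linarith) (by linarith [min_le_right s (α - 2)])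
    rw [Real.rpow_two] at this
    linarith
  have hq2 : 104 * q ≤ l ^ α := by rw [hΛ, hq]; nlinarith
  refine ⟨Real.exp (-(8 * q + 3)) / l ^ α, Real.exp (-(8 * q + 2)) / l ^ α, by positivity,
    by gcongr; norm_num, fun ε hε ν hν => ?_⟩
  refine ⟨16 * ν * l ^ 2 + 8 * ν * (24 * q + 9) + 2, fun M hM => ?_⟩
  have H := hyp_par hν hl2 hq1 hq2 hε.1 hε.2 (M := M) (by linarith)
  constructor
  · obtain ⟨T, hT, -, u, hu, hk⟩ := blowup H
    refine ⟨T, hT, _, smooth_of_good (by linarith) (by linarith) hu, fun k => ?_⟩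
    obtain ⟨t, ht, h⟩ := hk k
    refine ⟨t, ht, ?_⟩
    have a1 : 0 ≤ ν * l ^ 2 := by positivity
    have hq0 : 0 < q := by positivity
    have a2 : 0 ≤ ν * (24 * q + 9) := by positivity
    have hM2 : 1 ≤ M / 2 := by linarith
    have b1 : q ^ k ≤ u k t := by nlinarith [pow_pos hq0 k]
    have b2 : l ^ σ ≤ l ^ s := Real.rpow_le_rpow_of_exponent_le (by linarith) (min_le_left _ _)
    have b3 : 2 * l ^ α ≤ l ^ s * q := by rw [hΛ, hq]; nlinarith
    rw [← mul_div_assoc, le_div_iff₀ (by positivity), ← mul_pow]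
    calc (2 * l ^ α) ^ k ≤ (l ^ s * q) ^ k := by gcongr
      _ = (l ^ s) ^ k * q ^ k := mul_pow _ _ _
      _ ≤ (l ^ s) ^ k * u k t := by gcongr
  · rintro ⟨X, hX⟩
    have := life H (good_of_smooth (T := 2 * (24 * q + 9) / M + 1) (by linarith)
      Ico_subset_Ici_self hX)
    linarith

end Pool.Agent.Work.MP_6bf1e5_an.Mixed
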